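import Mathlib

namespace Pool.Agent.P.MP_84fce2_co.Sv

open Finset Equiv

/-- Parity of the number of copies of a pattern. -/
theorem parity {X ι : Type*} [DecidableEq X] [DecidableEq ι] (H : Subgroup (Perm X))
    (P : Finset ι) (D : ι → Finset X) (E : Finset ι → Finset X) (β : ι → X)
    (hD : ∀ a ∈ P, ∀ b ∈ P, ∀ x, x ∈ D a → x ∈ D b → a = b)
    (hβ : ∀ a ∈ P, β a ∈ D a)
    (hE : ∀ T ⊆ P, ∀ x, x ∈ E T ↔ ¬ (x ∈ E ∅ ↔ ∃ a ∈ T, x ∈ D a))
    (hinv : ∀ T ⊆ P, ∃ g ∈ H, g ≠ 1 ∧ g * g = 1 ∧ ∀ x, g x ∈ E T ↔ x ∈ E T) :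
    ∃ g ∈ H, g ≠ 1 ∧ ∀ a ∈ P, ∃ b ∈ P, g (β b) ∈ D a := by
  classical
  by_contra hcon
  push Not at hcon
  have hone : ∀ g ∈ H, (∀ a ∈ P, ∃ b ∈ P, g (β b) ∈ D a) → g = 1 := by
    intro g hg h
    by_contra h1
    obtain ⟨a, ha, h2⟩ := hcon g hg h1
    obtain ⟨b, hb, h3⟩ := h a ha
    exact h2 b hb h3
  set Q₀ : Finset X := P.image β with hQ₀
  set U : Finset X := E ∅ ∪ P.biUnion D with hU
  set 𝒬 : Finset (Finset X) := U.powerset.filter fun Q => ∃ g ∈ H, Q = Q₀.image g with h𝒬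
  have hEU : ∀ T ⊆ P, E T ⊆ U := by
    intro T hT x hx
    rw [hE T hT] at hx
    rw [hU, mem_union, mem_biUnion]
    by_cases h : x ∈ E ∅
    · exact Or.inl h
    · right
      by_contra h'
      exact hx ⟨fun h1 => absurd h1 h, fun ⟨a, ha, h2⟩ => absurd ⟨a, hT ha, h2⟩ h'⟩
  -- each count is even
  have heven : ∀ T ∈ P.powerset,
      ∑ Q ∈ 𝒬, (if Q ⊆ E T then (1 : ZMod 2) else 0) = 0 := by
    intro T hT
    rw [mem_powerset] at hT
    obtain ⟨γ, hγ, hγ1, hγ2, hγE⟩ := hinv T hT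
    have hγγ : ∀ x, γ (γ x) = x := fun x => by rw [← Perm.mul_apply, hγ2]; rfl
    rw [← sum_filter]
    refine sum_involution (fun Q _ => Q.image γ) (fun _ _ => by decide) ?_ ?_ ?_
    · intro Q hQ _ hfix
      rw [mem_filter, h𝒬, mem_filter] at hQ
      obtain ⟨⟨-, g, hg, rfl⟩, -⟩ := hQ
      have h1 : g⁻¹ * γ * g = 1 := by
        apply hone _ (H.mul_mem (H.mul_mem (H.inv_mem hg) hγ) hg)
        intro a ha
        have : g (β a) ∈ (Q₀.image g).image γ := by
          rw [hfix]; exact mem_image_of_mem _ (mem_image_of_mem _ ha)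
        simp only [hQ₀, mem_image] at this
        obtain ⟨y, ⟨x, ⟨b, hb, rfl⟩, rfl⟩, e⟩ := this
        refine ⟨b, hb, ?_⟩
        rw [Perm.mul_apply, Perm.mul_apply, e]
        simpa using hβ a ha
      apply hγ1
      calc γ = g * (g⁻¹ * γ * g) * g⁻¹ := by group
        _ = 1 := by rw [h1]; group
    · intro Q hQ
      rw [mem_filter, h𝒬, mem_filter] at hQ ⊢
      obtain ⟨⟨-, g, hg, hQg⟩, hQE⟩ := hQ
      have hsub : Q.image γ ⊆ E T := by
        intro y hy
        obtain ⟨x, hx, rfl⟩ := mem_image.1 hy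
        exact (hγE x).2 (hQE hx)
      refine ⟨⟨mem_powerset.2 (hsub.trans (hEU T hT)), γ * g, H.mul_mem hγ hg, ?_⟩, hsub⟩
      rw [hQg, image_image]
      rfl
    · intro Q _
      rw [image_image]
      have : (γ ∘ γ : X → X) = id := funext hγγ
      rw [this, image_id]
  have htot : ∑ T ∈ P.powerset, ∑ Q ∈ 𝒬, (if Q ⊆ E T then (1 : ZMod 2) else 0) = 0 :=
    sum_eq_zero heven
  rw [sum_comm] at htot
  have hQ₀mem : Q₀ ∈ 𝒬 := by
    rw [h𝒬, mem_filter, mem_powerset]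
    refine ⟨fun x hx => ?_, 1, H.one_mem, by simp⟩
    obtain ⟨a, ha, rfl⟩ := mem_image.1 hx
    exact mem_union_right _ (mem_biUnion.2 ⟨a, ha, hβ a ha⟩)
  rw [sum_eq_single_of_mem Q₀ hQ₀mem] at htot
  · set T₀ := P.filter fun a => β a ∉ E ∅ with hT₀
    have key : ∀ T ⊆ P, (Q₀ ⊆ E T ↔ T = T₀) := by
      intro T hT
      have hmem : ∀ a ∈ P, (β a ∈ E T ↔ ¬ (β a ∈ E ∅ ↔ a ∈ T)) := by
        intro a ha
        rw [hE T hT]
        have : (∃ b ∈ T, β a ∈ D b) ↔ a ∈ T :=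
          ⟨fun ⟨b, hb, h⟩ => hD a ha b (hT hb) _ (hβ a ha) h ▸ hb, fun h => ⟨a, h, hβ a ha⟩⟩
        rw [this]
      constructor
      · intro h
        ext a
        rw [hT₀, mem_filter]
        by_cases ha : a ∈ P
        · have := (hmem a ha).1 (h (mem_image_of_mem _ ha))
          tauto
        · exact ⟨fun h => absurd (hT h) ha, fun h => absurd h.1 ha⟩
      · intro h x hx
        obtain ⟨a, ha, rfl⟩ := mem_image.1 hx
        rw [hmem a ha, h, hT₀, mem_filter]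
        tauto
    rw [sum_eq_single_of_mem T₀ (mem_powerset.2 (filter_subset _ _))] at htot
    · rw [if_pos ((key T₀ (filter_subset _ _)).2 rfl)] at htot
      exact absurd htot (by decide)
    · intro T hT hne
      rw [if_neg fun h => hne ((key T (mem_powerset.1 hT)).1 h)]
  · intro Q hQ hne
    rw [h𝒬, mem_filter] at hQ
    obtain ⟨-, g, hg, rfl⟩ := hQ
    have hg1 : g ≠ 1 := by
      rintro rfl
      exact hne (by simp)
    obtain ⟨a, ha, hno⟩ := hcon g hg hg1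
    have hno' : ∀ x ∈ Q₀.image g, x ∉ D a := by
      intro x hx
      simp only [hQ₀, mem_image] at hx
      obtain ⟨y, ⟨b, hb, rfl⟩, rfl⟩ := hx
      exact hno b hb
    rw [← insert_erase ha, sum_powerset_insert (notMem_erase a P), ← sum_add_distrib]
    refine sum_eq_zero fun T hT => ?_
    have hT' : T ⊆ P := (mem_powerset.1 hT).trans (erase_subset _ _)
    have hT'' : insert a T ⊆ P := insert_subset ha hT'
    have : (Q₀.image g ⊆ E (insert a T)) ↔ (Q₀.image g ⊆ E T) := by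
      refine forall₂_congr fun x hx => ?_
      rw [hE _ hT', hE _ hT'']
      have : (∃ b ∈ insert a T, x ∈ D b) ↔ ∃ b ∈ T, x ∈ D b := by
        simp only [mem_insert, exists_eq_or_imp]
        exact ⟨fun h => h.resolve_left (hno' x hx), Or.inr⟩
      rw [this]
    simp only [this]
    split_ifs <;> decide

end Pool.Agent.P.MP_84fce2_co.Sv
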