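import Pool.Agent.P.MP_84fce2_co.s.Iso
import Pool.Agent.P.MP_84fce2_co.s.Par

namespace Pool.Agent.P.MP_84fce2_co.Sv

open Finset Equiv ComplexConjugate

/-- A finite set has at most as many parallel lines as ends of strings. -/
lemma card_lines (B : Finset ℂ) {l : ℂ} (hl : l ≠ 0) :
    (B.image fun x => (x * conj l).im).card ≤ (B.filter fun x => x + l ∉ B).card := by
  classical
  refine le_trans (card_le_card fun t ht => ?_) (card_image_le (f := fun x => (x * conj l).im))
  obtain ⟨x₀, hx₀, e₀⟩ := mem_image.1 ht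
  obtain ⟨x, hx, hmax⟩ := exists_max_image (B.filter fun x => (x * conj l).im = t)
    (fun x => (x * conj l).re) ⟨x₀, mem_filter.2 ⟨hx₀, e₀⟩⟩
  rw [mem_filter] at hx
  refine mem_image.2 ⟨x, mem_filter.2 ⟨hx.1, fun h => ?_⟩, hx.2⟩
  have e : (x + l) * conj l = x * conj l + (Complex.normSq l : ℝ) := by
    rw [add_mul, Complex.mul_conj]
  have := hmax (x + l) (mem_filter.2 ⟨h, by rw [e]; simp [hx.2]⟩)
  rw [e] at this
  have h2 := Complex.normSq_pos.2 hl
  simp only [Complex.add_re, Complex.ofReal_re] at this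
  linarith

lemma card_le_four {B : Finset ℂ} {ρ : Perm ℂ} {a l : ℂ} (hρ : Pos ρ a) (ha : a ≠ 1)
    (ha' : a ≠ -1) (hB : Pres ρ B) (hl : l ≠ 0) (h2 : (B.filter fun x => x + l ∉ B).card ≤ 2) :
    B.card ≤ 4 := by
  classical
  have h1 := (card_lines B hl).trans h2
  set I := B.image fun x => (x * conj l).im with hI
  have : B.card ≤ (I ×ˢ I).card := by
    refine card_le_card_of_injOn (fun x => ((x * conj l).im, (ρ x * conj l).im)) ?_ ?_
    · intro x hx
      simp only [coe_product, Set.mem_prod, mem_coe]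
      exact ⟨mem_image_of_mem _ hx, mem_image_of_mem (fun x => (x * conj l).im) ((hB x).2 hx)⟩
    · intro x _ y _ e
      obtain ⟨e1, e2⟩ := Prod.mk.inj e
      have f1 : conj ((x - y) * conj l) = (x - y) * conj l := by
        rw [Complex.conj_eq_iff_im, sub_mul, Complex.sub_im, e1, sub_self]
      have f2 : conj (a * (x - y) * conj l) = a * (x - y) * conj l := by
        rw [Complex.conj_eq_iff_im, ← hρ.2, sub_mul, Complex.sub_im, e2, sub_self]
      rw [mul_assoc, map_mul, f1] at f2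
      have f3 : (a - 1) * (a + 1) * ((x - y) * conj l) = 0 := by
        linear_combination (-a) * f2 + ((x - y) * conj l) * hρ.1
      have hl' : conj l ≠ 0 := by simpa using hl
      have h4 : a + 1 ≠ 0 := fun h => ha' (by linear_combination h)
      simpa [sub_eq_zero, ha, h4, hl] using f3
  rw [card_product] at this
  nlinarith

lemma small_mirror {B : Finset ℂ} {ρ : Perm ℂ} {a o : ℂ} (hρ : Pos ρ a) (ha : a ≠ 1)
    (ha' : a ≠ -1) (hB : Pres ρ B) (ho : ρ o = o) (h4 : B.card ≤ 4) :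
    ∃ g u, Neg g u ∧ g o = o ∧ Pres g B := by
  classical
  have hform : ∀ z, ρ z = o + a * (z - o) := fun z => by
    have := hρ.2 z o
    rw [ho] at this
    linear_combination this
  have hpres : ∀ u (hu : u * conj u = 1), (∀ y ∈ B, rf o u hu y ∈ B) → Pres (rf o u hu) B := by
    intro u hu h y
    refine ⟨fun hy => ?_, h y⟩
    have := h _ hy
    rwa [← Perm.mul_apply, (rf_neg o u hu).invol (p := o) (by simp [rf_apply])] at this
  by_cases hx : ∃ x ∈ B, x ≠ o
  swap
  · push Not at hx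
    refine ⟨rf o 1 (by simp), 1, rf_neg _ _ _, by simp [rf_apply], hpres _ _ fun y hy => ?_⟩
    rw [rf_apply, hx y hy]
    simpa [hx y hy] using hy
  obtain ⟨x, hx, hxo⟩ := hx
  have hv : x - o ≠ 0 := sub_ne_zero.2 hxo
  have hv' : conj (x - o) ≠ 0 := by rwa [Ne, map_eq_zero]
  have ha0 := unit_ne hρ.1
  have hu : (x - o) / conj (x - o) * conj ((x - o) / conj (x - o)) = 1 := by
    rw [map_div₀, Complex.conj_conj]
    field_simp
  set Orb : Set ℂ := {y | ∃ k : ℕ, y = o + a ^ k * (x - o)} with hOrb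
  have hfw : ∀ y ∈ B, ∀ k : ℕ, o + a ^ k * (y - o) ∈ B := by
    intro y hy k
    induction k with
    | zero => simpa using hy
    | succ k ih =>
      have := (hB _).2 ih
      rw [hform] at this
      have e : o + a ^ (k + 1) * (y - o) = o + a * (o + a ^ k * (y - o) - o) := by ring
      rw [e]
      exact this
  have hbw : ∀ y ∈ B, ∀ k : ℕ, o + conj a ^ k * (y - o) ∈ B := by
    intro y hy k
    induction k with
    | zero => simpa using hy
    | succ k ih =>
      refine (hB _).1 ?_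
      rw [hform]
      have e : o + a * (o + conj a ^ (k + 1) * (y - o) - o) = o + conj a ^ k * (y - o) := by
        linear_combination (conj a ^ k * (y - o)) * hρ.1
      rw [e]
      exact ih
  have hthree : ∀ y, y ≠ o → ({y, o + a * (y - o), o + a ^ 2 * (y - o)} : Finset ℂ).card = 3 := by
    intro y hy
    have hy' : y - o ≠ 0 := sub_ne_zero.2 hy
    have n1 : a - 1 ≠ 0 := sub_ne_zero.2 ha
    have n2 : a + 1 ≠ 0 := fun h => ha' (by linear_combination h)
    refine card_eq_three.2 ⟨_, _, _, fun e => ?_, fun e => ?_, fun e => ?_, rfl⟩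
    · exact mul_ne_zero n1 hy' (by linear_combination -e)
    · exact mul_ne_zero (mul_ne_zero n1 n2) hy' (by linear_combination -e)
    · exact mul_ne_zero (mul_ne_zero n1 ha0) hy' (by linear_combination -e)
  have hsub : ∀ y ∈ B, ({y, o + a * (y - o), o + a ^ 2 * (y - o)} : Finset ℂ) ⊆ B := by
    intro y hy
    have h1 := hfw y hy 1
    rw [pow_one] at h1
    exact insert_subset hy (insert_subset h1 (singleton_subset_iff.2 (hfw y hy 2)))
  have horb : ∀ y ∈ B, y ≠ o → ∃ j k : ℕ, a ^ j * (y - o) = a ^ k * (x - o) := by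
    intro y hy hyo
    have hnd : ¬ Disjoint ({y, o + a * (y - o), o + a ^ 2 * (y - o)} : Finset ℂ)
        {x, o + a * (x - o), o + a ^ 2 * (x - o)} := by
      intro hd
      have := card_le_card (union_subset (hsub y hy) (hsub x hx))
      rw [card_union_of_disjoint hd, hthree y hyo, hthree x hxo] at this
      omega
    obtain ⟨t, h1, h2⟩ := not_disjoint_iff.1 hnd
    have key : ∀ w t, t ∈ ({w, o + a * (w - o), o + a ^ 2 * (w - o)} : Finset ℂ) →
        ∃ j : ℕ, t = o + a ^ j * (w - o) := by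
      intro w t ht
      simp only [mem_insert, mem_singleton] at ht
      rcases ht with h | h | h
      · exact ⟨0, by simp [h]⟩
      · exact ⟨1, by simp [h]⟩
      · exact ⟨2, h⟩
    obtain ⟨j, hj⟩ := key y t h1
    obtain ⟨k, hk⟩ := key x t h2
    exact ⟨j, k, by linear_combination hk - hj⟩
  refine ⟨rf o _ hu, _, rf_neg _ _ _, by simp [rf_apply], hpres _ _ fun y hy => ?_⟩
  by_cases hyo : y = o
  · rw [rf_apply, hyo]
    simpa [hyo] using hy
  obtain ⟨j, k, e⟩ := horb y hy hyo
  have e' := congrArg conj e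
  rw [map_mul, map_mul, map_pow, map_pow] at e'
  have hj : a ^ j * conj a ^ j = 1 := by rw [← mul_pow, hρ.1, one_pow]
  have := hfw _ (hbw x hx k) j
  have e2 : rf o _ hu y = o + a ^ j * (o + conj a ^ k * (x - o) - o) := by
    rw [rf_apply]
    have e3 : conj (y - o) = a ^ j * conj a ^ k * conj (x - o) := by
      linear_combination a ^ j * e' - conj (y - o) * hj
    rw [e3]
    field_simp
    ring
  rw [e2]
  exact this

/-- A symmetric finite set with a symmetric neighbour has a symmetry of order two. -/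
lemma invol_of_neighbour {B B' : Finset ℂ} {w : ℂ} (hne : B.Nonempty) (hw : w ≠ cen B)
    (hBB : ∀ x, x ∈ B' ↔ ¬ (x ∈ B ↔ x = w)) {ρ γ : Perm ℂ} (hρ : Iso ρ) (hρ1 : ρ ≠ 1)
    (hρB : Pres ρ B) (hγ : Iso γ) (hγ1 : γ ≠ 1) (hγB : Pres γ B') :
    ∃ g, Iso g ∧ g ≠ 1 ∧ g * g = 1 ∧ Pres g B := by
  classical
  set o := cen B with ho
  have hρo : ρ o = o := hρ.fix_cen hρB hne
  obtain ⟨a, hρ | hρ⟩ := hρ
  swap
  · exact ⟨ρ, ⟨a, Or.inr hρ⟩, hρ1, hρ.invol hρo, hρB⟩
  by_cases ha' : a = -1
  · exact ⟨ρ, ⟨a, Or.inl hρ⟩, hρ1, hρ.invol ha' hρo, hρB⟩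
  have ha : a ≠ 1 := fun h => hρ1 (hρ.eq_one h hρo)
  have hoff : ∀ x, x ≠ w → (x ∈ B' ↔ x ∈ B) := fun x hx => by rw [hBB]; tauto
  have hat : w ∈ B' ↔ w ∉ B := by rw [hBB]; tauto
  have hγB' : ∀ x, γ x ∈ B' ↔ x ∈ B' := fun x => by simpa using hγB x
  have hρB' : ∀ x, ρ x ∈ B ↔ x ∈ B := fun x => by simpa using hρB x
  by_cases hfix : γ w = w
  · have hp : Pres γ B := by
      intro x
      by_cases hx : x = w
      · rw [hx, hfix]
      · have hx' : γ x ≠ w := fun e => hx (γ.injective (e.trans hfix.symm))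
        simp only [mem_coe]
        rw [← hoff x hx, ← hoff _ hx', hγB']
    have hγo : γ o = o := hγ.fix_cen hp hne
    obtain ⟨b, hγ | hγ⟩ := hγ
    · exact absurd (hγ.eq_one_of_two hw hfix hγo) hγ1
    · exact ⟨γ, ⟨b, Or.inr hγ⟩, hγ1, hγ.invol hγo, hp⟩
  have hγo : γ o ≠ o := by
    intro hγo
    have h0 := sum_sub_cen hne
    rw [← ho] at h0
    by_cases hwB : w ∈ B
    · have e : B' = B.erase w := by
        ext x
        rw [hBB, mem_erase]
        by_cases hx : x = w
        · simp [hx, hwB]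
        · simp [hx]
      have hs : ∑ x ∈ B', (x - o) = (2 * o - w) - o := by
        rw [← add_sum_erase B _ hwB, ← e] at h0
        linear_combination h0
      have h1 := hγ.moment hγB o _ hs
      rw [hγo, hs] at h1
      apply hfix
      obtain ⟨b, hγ | hγ⟩ := hγ
      · have e1 := hγ.2 (2 * o - w) o
        have e2 := hγ.2 w o
        rw [hγo] at e1 e2
        linear_combination e1 + e2 - h1
      · have e1 := hγ.2 (2 * o - w) o
        have e2 := hγ.2 w o
        rw [hγo] at e1 e2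
        simp only [map_sub, map_mul, map_ofNat] at e1 e2
        linear_combination e1 + e2 - h1
    · have e : B' = insert w B := by
        ext x
        rw [hBB, mem_insert]
        by_cases hx : x = w
        · simp [hx, hwB]
        · simp [hx]
      have hs : ∑ x ∈ B', (x - o) = w - o := by
        rw [e, sum_insert hwB, h0, add_zero]
      have h1 := hγ.moment hγB o _ hs
      rw [hγo, hs] at h1
      exact hfix (by linear_combination h1)
  -- a rotation with the same angle about `γ o`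
  obtain ⟨σ, hσ, hσo, hσB⟩ : ∃ σ : Perm ℂ, Pos σ a ∧ σ (γ o) = γ o ∧
      ∀ x, γ⁻¹ (σ x) ∈ B ↔ γ⁻¹ x ∈ B := by
    obtain ⟨b, hγ | hγ⟩ := hγ
    · refine ⟨γ * ρ * γ⁻¹, ?_, by simp [hρo], fun x => by simp [hρB']⟩
      have := (hγ.mul hρ).mul hγ.inv
      rwa [show b * a * conj b = a by linear_combination a * hγ.1] at this
    · have hρo' : ρ⁻¹ o = o := by rw [Perm.inv_eq_iff_eq, hρo]
      refine ⟨γ * ρ⁻¹ * γ⁻¹, ?_, by simp only [Perm.mul_apply, inv_app, hρo'], fun x => ?_⟩
      · have := (hγ.mul_pos hρ.inv).mul hγ.inv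
        rwa [Complex.conj_conj, show b * a * conj b = a by linear_combination a * hγ.1] at this
      · simp only [Perm.mul_apply, inv_app]
        rw [← hρB', app_inv]
  have hτ : Pos (ρ⁻¹ * σ) 1 := by
    have := hρ.inv.mul hσ
    rwa [mul_comm, hρ.1] at this
  set l := (ρ⁻¹ * σ) 0 with hl
  have hτ' : ∀ x, σ x = ρ (x + l) := fun x => by
    rw [← hτ.tr_form x, Perm.mul_apply, app_inv]
  have hl0 : l ≠ 0 := by
    intro h
    have := hτ' (γ o)
    rw [h, add_zero, hσo] at this
    exact hρ1 (hρ.eq_one_of_two hγo this.symm hρo)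
  have hcompare : ∀ y, y ≠ w → y ≠ γ w → (γ⁻¹ y ∈ B ↔ y ∈ B) := by
    intro y h1 h2
    have h3 : γ⁻¹ y ≠ w := fun e => h2 (by rw [← e, app_inv])
    rw [← hoff _ h3, ← hoff _ h1, ← hγB', app_inv]
  have h2 : (B.filter fun x => x + l ∉ B).card ≤ 2 := by
    have hgw : γ w ≠ w := hfix
    have hgw' : γ⁻¹ w ≠ w := fun e => hfix (by rw [← e, app_inv, e])
    have key : ∀ s t : ℂ, (∀ y ∈ B, y ≠ s → γ⁻¹ y ∈ B) → (∀ y, γ⁻¹ y ∈ B → y ≠ t → y ∈ B) →
        (B.filter fun x => x + l ∉ B).card ≤ 2 := by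
      intro s t k1 k2
      refine le_trans (card_le_card fun x hx => ?_) (card_le_two (a := s) (b := σ⁻¹ t))
      rw [mem_filter] at hx
      by_contra hcon
      simp only [mem_insert, mem_singleton, not_or] at hcon
      apply hx.2
      rw [← hρB', ← hτ']
      exact k2 _ ((hσB x).2 (k1 x hx.1 hcon.1)) fun e => hcon.2 (by rw [← e, inv_app])
    by_cases hwB : w ∈ B
    · have n1 : w ∉ B' := fun h => hat.1 h hwB
      refine key w (γ w) (fun y hy h1 => ?_) (fun y hy h1 => ?_)
      · by_cases h2 : y = γ w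
        · rw [h2, inv_app]; exact hwB
        · exact (hcompare y h1 h2).2 hy
      · by_cases h2 : y = w
        · rw [h2]; exact hwB
        · exact (hcompare y h2 h1).1 hy
    · refine key (γ w) w (fun y hy h1 => ?_) (fun y hy h1 => ?_)
      · exact (hcompare y (fun e => hwB (e ▸ hy)) h1).2 hy
      · refine (hcompare y h1 fun e => hwB ?_).1 hy
        rwa [e, inv_app] at hy
  obtain ⟨g, u, hg, hgo, hgB⟩ :=
    small_mirror hρ ha ha' hρB hρo (card_le_four hρ ha ha' hρB hl0 h2)
  exact ⟨g, ⟨u, Or.inr hg⟩, hg.ne_one, hg.invol hgo, hgB⟩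

lemma pres_of_maps {g : Perm ℂ} {P : Finset ℂ} (h : ∀ a ∈ P, ∃ b ∈ P, g b = a) : Pres g P := by
  classical
  have h1 : P ⊆ P.image g := fun a ha => mem_image.2 (h a ha)
  have h2 : P = P.image g := eq_of_subset_of_card_le h1 card_image_le
  intro x
  simp only [mem_coe]
  constructor
  · intro hx
    obtain ⟨b, hb, e⟩ := h _ hx
    rwa [← g.injective e]
  · intro hx
    rw [h2]
    exact mem_image_of_mem _ hx

/-- The finite problem. -/
theorem allSym_of_finite (W : Finset ℂ) (hW : 2 ≤ W.card) (E : Finset ℂ → Finset ℂ)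
    (hE : ∀ T ⊆ W, ∀ x, x ∈ E T ↔ ¬ (x ∈ E ∅ ↔ x ∈ T))
    (hsym : ∀ T ⊆ W, ∃ γ, Iso γ ∧ γ ≠ 1 ∧ Pres γ (E T)) : AllSym W := by
  classical
  have hinv : ∀ T ⊆ W, ∃ g, Iso g ∧ g ≠ 1 ∧ g * g = 1 ∧ Pres g (E T) := by
    intro T hT
    rcases (E T).eq_empty_or_nonempty with e | hne
    · refine ⟨rf 0 1 (by simp), ⟨1, Or.inr (rf_neg _ _ _)⟩, (rf_neg _ _ _).ne_one,
        (rf_neg _ _ _).invol (p := 0) (by simp [rf_apply]), fun x => by simp [e]⟩
    obtain ⟨w, hw, hwo⟩ := exists_mem_ne (show 1 < W.card by omega) (cen (E T))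
    set T' := if w ∈ T then T.erase w else insert w T with hT'
    have hT'W : T' ⊆ W := by
      rw [hT']
      split_ifs
      · exact (erase_subset _ _).trans hT
      · exact insert_subset hw hT
    have hm : ∀ x, x ∈ T' ↔ ¬ (x ∈ T ↔ x = w) := by
      intro x
      rw [hT']
      by_cases hx : x = w
      · split_ifs with h <;> simp [hx, h]
      · split_ifs with h <;> simp [hx]
    obtain ⟨ρ, h1, h2, h3⟩ := hsym T hT
    obtain ⟨γ, k1, k2, k3⟩ := hsym T' hT'W
    refine invol_of_neighbour hne hwo (fun x => ?_) h1 h2 h3 k1 k2 k3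
    rw [hE T' hT'W, hE T hT, hm]
    tauto
  intro P hP _
  obtain ⟨g, hg, hg1, h⟩ := parity isoG P (fun a => {a}) E id
    (fun a _ b _ x h1 h2 => (mem_singleton.1 h1).symm.trans (mem_singleton.1 h2))
    (fun a _ => mem_singleton_self a)
    (fun T hT x => by rw [hE T (hT.trans hP)]; simp)
    (fun T hT => by
      obtain ⟨g, h1, h2, h3, h4⟩ := hinv T (hT.trans hP)
      exact ⟨g, h1, h2, h3, fun x => by simpa using h4 x⟩)
  exact ⟨g, hg, hg1, pres_of_maps fun a ha => by simpa using h a ha⟩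

end Pool.Agent.P.MP_84fce2_co.Sv
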