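import Mathlib

namespace Pool.Agent.P.MP_84fce2_co.Sv

open Finset

variable {V : Type*} [DecidableEq V]

/-- Ordered cherries inside `S`. -/
noncomputable def cher (d : V → V → ℝ) (S : Finset V) : Finset (V × V × V) :=
  (S ×ˢ S ×ˢ S).filter fun t =>
    t.1 ≠ t.2.1 ∧ t.1 ≠ t.2.2 ∧ t.2.1 ≠ t.2.2 ∧ d t.1 t.2.1 = d t.1 t.2.2

lemma card_distinct (S : Finset V) :
    ((S ×ˢ S ×ˢ S).filter fun t => t.1 ≠ t.2.1 ∧ t.1 ≠ t.2.2 ∧ t.2.1 ≠ t.2.2).card =
      S.card * ((S.card - 1) * (S.card - 2)) := by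
  have h : ((S ×ˢ S ×ˢ S).filter fun t => t.1 ≠ t.2.1 ∧ t.1 ≠ t.2.2 ∧ t.2.1 ≠ t.2.2) =
      S.biUnion fun z => ((S.erase z).offDiag).image fun p => (z, p) := by
    ext ⟨z, x, y⟩
    simp only [mem_filter, mem_product, mem_biUnion, mem_image, mem_offDiag, mem_erase,
      Prod.mk.injEq, Prod.exists]
    constructor
    · rintro ⟨⟨h1, h2, h3⟩, h4, h5, h6⟩
      exact ⟨z, h1, x, y, ⟨⟨h4.symm, h2⟩, ⟨h5.symm, h3⟩, h6⟩, rfl, rfl, rfl⟩
    · rintro ⟨z, h1, x, y, ⟨⟨h4, h2⟩, ⟨h5, h3⟩, h6⟩, rfl, rfl, rfl⟩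
      exact ⟨⟨h1, h2, h3⟩, h4.symm, h5.symm, h6⟩
  rw [h, card_biUnion]
  · rw [← smul_eq_mul, ← sum_const]
    refine sum_congr rfl fun z hz => ?_
    rw [card_image_of_injective _ (fun p q h => (Prod.mk.inj h).2), offDiag_card,
      card_erase_of_mem hz]
    obtain ⟨m, hm⟩ : ∃ m, S.card - 1 = m := ⟨_, rfl⟩
    have : S.card - 2 = m - 1 := by omega
    rw [hm, this, Nat.mul_sub_one]
  · intro z _ z' _ hne
    rw [Function.onFun, disjoint_left]
    intro t h1 h2
    obtain ⟨p, -, rfl⟩ := mem_image.1 h1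
    obtain ⟨q, -, e⟩ := mem_image.1 h2
    exact hne (Prod.mk.inj e).1.symm

lemma cher_lower (d : V → V → ℝ) (S : Finset V)
    (hG : ∀ x ∈ S, ∀ y ∈ S, ∀ z ∈ S, x ≠ y → x ≠ z → y ≠ z →
      d x y = d x z ∨ d y x = d y z ∨ d z x = d z y) :
    S.card * ((S.card - 1) * (S.card - 2)) ≤ 3 * (cher d S).card := by
  rw [← card_distinct]
  have hsub : ((S ×ˢ S ×ˢ S).filter fun t => t.1 ≠ t.2.1 ∧ t.1 ≠ t.2.2 ∧ t.2.1 ≠ t.2.2) ⊆
      cher d S ∪ (cher d S).image (fun t => (t.2.1, t.1, t.2.2)) ∪
        (cher d S).image (fun t => (t.2.1, t.2.2, t.1)) := by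
    rintro ⟨x, y, z⟩ ht
    simp only [mem_filter, mem_product] at ht
    obtain ⟨⟨h1, h2, h3⟩, h4, h5, h6⟩ := ht
    simp only [mem_union, mem_image]
    rcases hG x h1 y h2 z h3 h4 h5 h6 with h | h | h
    · exact Or.inl (Or.inl (by simp [cher, h1, h2, h3, h4, h5, h6, h]))
    · exact Or.inl (Or.inr ⟨(y, x, z), by simp [cher, h1, h2, h3, h4.symm, h5, h6, h], rfl⟩)
    · exact Or.inr ⟨(z, x, y), by simp [cher, h1, h2, h3, h4, h5.symm, h6.symm, h], rfl⟩
  have h1 := (card_le_card hsub).trans (card_union_le _ _)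
  have h2 := card_union_le (cher d S) ((cher d S).image (fun t => (t.2.1, t.1, t.2.2)))
  have h3 : ((cher d S).image (fun t => (t.2.1, t.1, t.2.2))).card ≤ _ := card_image_le
  have h4 : ((cher d S).image (fun t => (t.2.1, t.2.2, t.1))).card ≤ _ := card_image_le
  omega

lemma cher_upper (d : V → V → ℝ) (S : Finset V) (k : ℕ)
    (h : ∀ x ∈ S, ∀ y ∈ S, x ≠ y →
      (S.filter fun z => z ≠ x ∧ z ≠ y ∧ d z x = d z y).card ≤ k) :
    (cher d S).card ≤ S.card * (S.card - 1) * k := by
  have hsub : cher d S ⊆ S.offDiag.biUnion fun p =>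
      (S.filter fun z => z ≠ p.1 ∧ z ≠ p.2 ∧ d z p.1 = d z p.2).image fun z => (z, p) := by
    rintro ⟨z, x, y⟩ ht
    simp only [cher, mem_filter, mem_product] at ht
    obtain ⟨⟨h1, h2, h3⟩, h4, h5, h6, h7⟩ := ht
    exact mem_biUnion.2 ⟨(x, y), mem_offDiag.2 ⟨h2, h3, h6⟩,
      mem_image.2 ⟨z, mem_filter.2 ⟨h1, h4, h5, h7⟩, rfl⟩⟩
  refine (card_le_card hsub).trans ((card_biUnion_le_card_mul _ _ k fun p hp => ?_).trans ?_)
  · rw [mem_offDiag] at hp
    exact card_image_le.trans (h _ hp.1 _ hp.2.1 hp.2.2)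
  · rw [offDiag_card, Nat.mul_sub_one]

lemma cher_local (d : V → V → ℝ) (S : Finset V) :
    (cher d S).card = ∑ z ∈ S, ∑ x ∈ S.erase z,
      (((S.erase z).filter fun y => d z y = d z x).card - 1) := by
  rw [card_eq_sum_card_fiberwise (f := fun t : V × V × V => t.1) (t := S)
    (fun t ht => by simp only [cher, coe_filter, mem_product, Set.mem_ofPred_eq] at ht; exact ht.1.1)]
  refine sum_congr rfl fun z hz => ?_
  rw [card_eq_sum_card_fiberwise (f := fun t : V × V × V => t.2.1) (t := S.erase z) (fun t ht => by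
    simp only [cher, coe_filter, mem_filter, mem_product, Set.mem_ofPred_eq] at ht
    obtain ⟨⟨⟨-, h2, -⟩, h4, -⟩, rfl⟩ := ht
    simp [h2, h4.symm])]
  refine sum_congr rfl fun x hx => ?_
  have hx' : x ∈ (S.erase z).filter fun y => d z y = d z x := mem_filter.2 ⟨hx, rfl⟩
  rw [← card_erase_of_mem hx']
  refine card_bij (fun t _ => t.2.2) ?_ ?_ ?_
  · rintro ⟨a, b, c⟩ ht
    simp only [cher, mem_filter, mem_product] at ht
    obtain ⟨⟨⟨⟨-, -, h3⟩, -, h5, h6, h7⟩, rfl⟩, rfl⟩ := ht
    simp [h3, h5.symm, h6.symm, h7]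
  · rintro ⟨a, b, c⟩ ht ⟨a', b', c'⟩ ht' e
    simp only [mem_filter] at ht ht'
    obtain ⟨⟨-, rfl⟩, rfl⟩ := ht
    obtain ⟨⟨-, h1⟩, h2⟩ := ht'
    simp only at e h1 h2
    rw [h1, h2, e]
  · intro y hy
    simp only [mem_erase, mem_filter] at hy hx
    refine ⟨(z, x, y), ?_, rfl⟩
    simp [cher, hz, hx.2, hy.2.1.2, hx.1.symm, hy.2.1.1.symm, hy.1.symm, hy.2.2]

/-- No Gallai colouring of seven points has at most two apexes over every pair. -/
theorem gallai (d : V → V → ℝ) (hs : ∀ x y, d x y = d y x) (S : Finset V) (hS : S.card = 7)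
    (hG : ∀ x ∈ S, ∀ y ∈ S, ∀ z ∈ S, x ≠ y → x ≠ z → y ≠ z →
      d x y = d x z ∨ d y x = d y z ∨ d z x = d z y)
    (hA : ∀ x ∈ S, ∀ y ∈ S, x ≠ y →
      (S.filter fun z => z ≠ x ∧ z ≠ y ∧ d z x = d z y).card ≤ 2) : False := by
  classical
  -- no proper module
  have hmod : ∀ C ⊆ S, 2 ≤ C.card → C.card < 7 →
      (∀ z ∈ S, z ∉ C → ∀ x ∈ C, ∀ y ∈ C, d z x = d z y) → False := by
    intro C hC h2 h7 hm
    have hsplit : ∀ x ∈ C, ∀ y ∈ C, x ≠ y →
        (C.filter fun z => z ≠ x ∧ z ≠ y ∧ d z x = d z y).card + (7 - C.card) ≤ 2 := by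
      intro x hx y hy hxy
      refine le_trans ?_ (hA x (hC hx) y (hC hy) hxy)
      rw [← hS, ← card_sdiff_of_subset hC, ← card_union_of_disjoint]
      · refine card_le_card fun z hz => ?_
        rcases mem_union.1 hz with h | h
        · rw [mem_filter] at h ⊢
          exact ⟨hC h.1, h.2⟩
        · rw [mem_sdiff] at h
          exact mem_filter.2 ⟨h.1, fun e => h.2 (e ▸ hx), fun e => h.2 (e ▸ hy),
            hm z h.1 h.2 x hx y hy⟩
      · exact disjoint_left.2 fun z h1 h2 => (mem_sdiff.1 h2).2 (mem_filter.1 h1).1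
    obtain ⟨x, hx, y, hy, hxy⟩ := one_lt_card.1 (show 1 < C.card by omega)
    have h5 := hsplit x hx y hy hxy
    have hl := cher_lower d C fun x hx y hy z hz => hG x (hC hx) y (hC hy) z (hC hz)
    have hu := cher_upper d C (C.card - 5) fun x hx y hy hxy => by
      have := hsplit x hx y hy hxy
      omega
    have : C.card = 5 ∨ C.card = 6 := by omega
    rcases this with h | h <;> rw [h] at hl hu <;> omega
  -- every colour at every point
  have hall : ∀ x ∈ S, ∀ y ∈ S, x ≠ y → ∀ z ∈ S, ∃ v ∈ S, v ≠ z ∧ d z v = d x y := by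
    intro x hx y hy hxy z hz
    by_contra hcon
    push Not at hcon
    let R : V → V → Prop := fun a b => a ∈ S ∧ b ∈ S ∧ a ≠ b ∧ d a b = d x y
    let C := S.filter fun v => Relation.ReflTransGen R x v
    have hxC : x ∈ C := mem_filter.2 ⟨hx, Relation.ReflTransGen.refl⟩
    have hyC : y ∈ C := mem_filter.2 ⟨hy, Relation.ReflTransGen.single ⟨hx, hy, hxy, rfl⟩⟩
    have hzC : z ∉ C := by
      intro h
      rcases (mem_filter.1 h).2.cases_tail with e | ⟨b, -, h1, -, h2, h3⟩
      · exact hcon y hy (by rw [e]; exact hxy.symm) (by rw [e])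
      · exact hcon b h1 h2 (by rw [hs, h3])
    have hm : ∀ t ∈ S, t ∉ C → ∀ v, Relation.ReflTransGen R x v → d t v = d t x := by
      intro t ht htC v hv
      induction hv with
      | refl => rfl
      | @tail a b hab hR ih =>
        obtain ⟨h1, h2, h3, h4⟩ := hR
        have hab' : Relation.ReflTransGen R x b := hab.tail ⟨h1, h2, h3, h4⟩
        have hta : t ≠ a := fun e => htC (mem_filter.2 ⟨ht, e ▸ hab⟩)
        have htb : t ≠ b := fun e => htC (mem_filter.2 ⟨ht, e ▸ hab'⟩)
        rw [← ih]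
        rcases hG t ht a h1 b h2 hta htb h3 with h | h | h
        · exact h.symm
        · exact absurd (mem_filter.2 ⟨ht, hab.tail ⟨h1, ht, hta.symm, h.trans h4⟩⟩) htC
        · exact absurd (mem_filter.2 ⟨ht, hab'.tail ⟨h2, ht, htb.symm,
            h.trans ((hs b a).trans h4)⟩⟩) htC
    refine hmod C (filter_subset _ _) (one_lt_card.2 ⟨x, hxC, y, hyC, hxy⟩) ?_ ?_
    · rw [← hS]
      exact card_lt_card ⟨filter_subset _ _, fun h => hzC (h hz)⟩
    · intro t ht htC a ha b hb
      rw [hm t ht htC a (mem_filter.1 ha).2, hm t ht htC b (mem_filter.1 hb).2]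
  have hl := cher_lower d S hG
  have hu := cher_upper d S 2 hA
  rw [hS, cher_local] at hl hu
  have her : ∀ z ∈ S, (S.erase z).card = 6 := fun z hz => by rw [card_erase_of_mem hz, hS]
  -- local counts through the colour classes
  have hloc : ∀ z ∈ S, ∑ x ∈ S.erase z, (((S.erase z).filter fun y => d z y = d z x).card - 1) =
      ∑ i ∈ (S.erase z).image (d z), ((S.erase z).filter fun y => d z y = i).card *
        (((S.erase z).filter fun y => d z y = i).card - 1) := by
    intro z _
    rw [← sum_fiberwise_of_maps_to (g := d z) (t := (S.erase z).image (d z))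
      (fun x hx => mem_image_of_mem _ hx)]
    refine sum_congr rfl fun i _ => ?_
    rw [← smul_eq_mul, ← sum_const]
    refine sum_congr rfl fun x hx => ?_
    rw [(mem_filter.1 hx).2]
  have hsum : ∀ z ∈ S, ∑ i ∈ (S.erase z).image (d z),
      ((S.erase z).filter fun y => d z y = i).card = 6 := by
    intro z hz
    rw [← card_eq_sum_card_image, her z hz]
  have himg : ∀ z ∈ S, ∀ z' ∈ S, (S.erase z).image (d z) ⊆ (S.erase z').image (d z') := by
    intro z hz z' hz' i hi
    obtain ⟨y, hy, rfl⟩ := mem_image.1 hi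
    rw [mem_erase] at hy
    obtain ⟨v, hv, h1, h2⟩ := hall z hz y hy.2 hy.1.symm z' hz'
    exact mem_image.2 ⟨v, mem_erase.2 ⟨h1, hv⟩, h2⟩
  obtain ⟨z₀, hz₀⟩ : S.Nonempty := card_pos.1 (by omega)
  set I := (S.erase z₀).image (d z₀) with hI
  have hIz : ∀ z ∈ S, (S.erase z).image (d z) = I :=
    fun z hz => Subset.antisymm (himg z hz z₀ hz₀) (himg z₀ hz₀ z hz)
  by_cases h3 : 3 ≤ I.card
  · have hle : ∀ z ∈ S,
        ∑ x ∈ S.erase z, (((S.erase z).filter fun y => d z y = d z x).card - 1) ≤ 9 := by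
      intro z hz
      have hsmall : ∀ i ∈ I, ((S.erase z).filter fun y => d z y = i).card ≤ 3 := by
        intro i hi
        by_contra hbig
        obtain ⟨j, hj, k, hk, hjk⟩ := one_lt_card.1
          (show 1 < (I.erase i).card by rw [card_erase_of_mem hi]; omega)
        have main : ∀ j ∈ I.erase i, ∀ k ∈ I.erase i, j ≠ k → ∀ x ∈ S.erase z, d z x = j →
            ∀ x' ∈ S.erase z, d z x' = k → d x x' ≠ j := by
          intro j hj k hk hjk x hx ex x' hx' ex' e
          rw [mem_erase] at hj hk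
          set N := (S.erase z).filter fun y => d z y = i with hN
          have hxN : x ∉ N := fun h => hj.1 (ex.symm.trans (mem_filter.1 h).2)
          have hxN' : x' ∉ N := fun h => hk.1 (ex'.symm.trans (mem_filter.1 h).2)
          have hxx : x ≠ x' := fun h => hjk (by rw [← ex, ← ex', h])
          have hfull : insert x (insert x' N) = S.erase z := by
            apply eq_of_subset_of_card_le
            · exact insert_subset hx (insert_subset hx' (filter_subset _ _))
            · rw [card_insert_of_notMem (by simp [hxx, hxN]), card_insert_of_notMem hxN',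
                her z hz]
              omega
          rw [mem_erase] at hx hx'
          obtain ⟨v, hv, h1, h2⟩ := hall z hz x' hx'.2 hx'.1.symm x hx.2
          rw [ex'] at h2
          by_cases hvz : v = z
          · rw [hvz, hs, ex] at h2
            exact hjk h2
          have hv' : v ∈ insert x (insert x' N) := hfull ▸ mem_erase.2 ⟨hvz, hv⟩
          rcases mem_insert.1 hv' with h | h
          · exact h1 h
          rcases mem_insert.1 h with h | h
          · rw [h, e] at h2
            exact hjk h2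
          have hvi := (mem_filter.1 h).2
          rcases hG z hz x hx.2 v hv hx.1.symm (Ne.symm hvz) (Ne.symm h1) with h' | h' | h'
          · exact hj.1 (by rw [← ex, h', hvi])
          · exact hjk (by rw [← ex, hs, h', h2])
          · exact hk.1 (by rw [← h2, hs, ← h', hs, hvi])
        have hj' := hIz z hz ▸ (mem_erase.1 hj).2
        have hk' := hIz z hz ▸ (mem_erase.1 hk).2
        obtain ⟨x, hx, ex⟩ := mem_image.1 hj'
        obtain ⟨x', hx', ex'⟩ := mem_image.1 hk'
        have hxx : x ≠ x' := fun h => hjk (by rw [← ex, ← ex', h])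
        have m1 := main j hj k hk hjk x hx ex x' hx' ex'
        have m2 := main k hk j hj hjk.symm x' hx' ex' x hx ex
        rw [mem_erase] at hx hx'
        rcases hG z hz x hx.2 x' hx'.2 hx.1.symm hx'.1.symm hxx with h' | h' | h'
        · exact hjk (by rw [← ex, ← ex', h'])
        · exact m1 (by rw [← h', hs, ex])
        · exact m2 (by rw [← h', hs, ex'])
      have h6 := hsum z hz
      rw [hloc z hz]
      rw [hIz z hz] at h6 ⊢
      have : ∑ i ∈ I, (((S.erase z).filter fun y => d z y = i).card *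
          (((S.erase z).filter fun y => d z y = i).card - 1) + 3) ≤
          ∑ i ∈ I, 3 * ((S.erase z).filter fun y => d z y = i).card := by
        refine sum_le_sum fun i hi => ?_
        have h1 := hsmall i hi
        have h2 : 0 < ((S.erase z).filter fun y => d z y = i).card := by
          obtain ⟨x, hx, ex⟩ := mem_image.1 (hIz z hz ▸ hi)
          exact card_pos.2 ⟨x, mem_filter.2 ⟨hx, ex⟩⟩
        obtain ⟨n, hn⟩ : ∃ n, ((S.erase z).filter fun y => d z y = i).card = n := ⟨_, rfl⟩
        rw [hn] at h1 h2 ⊢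
        interval_cases n <;> norm_num
      rw [sum_add_distrib, ← mul_sum, h6, sum_const, smul_eq_mul] at this
      omega
    have := sum_le_card_nsmul S _ 9 hle
    rw [hS, smul_eq_mul] at this
    omega
  · obtain ⟨i, hi⟩ : I.Nonempty := (card_pos.1 (by rw [her z₀ hz₀]; norm_num)).image _
    set a : V → ℕ := fun z => ((S.erase z).filter fun y => d z y = i).card with ha
    have hge : ∀ z ∈ S, 12 + (if a z = 3 then 0 else 1) ≤
        ∑ x ∈ S.erase z, (((S.erase z).filter fun y => d z y = d z x).card - 1) := by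
      intro z hz
      have h6 := hsum z hz
      rw [hloc z hz]
      rw [hIz z hz] at h6 ⊢
      rw [← add_sum_erase I _ hi] at h6 ⊢
      have hc : (I.erase i).card ≤ 1 := by rw [card_erase_of_mem hi]; omega
      rcases (I.erase i).eq_empty_or_nonempty with e | ⟨j, hj⟩
      · rw [e, sum_empty, add_zero] at h6 ⊢
        rw [h6]
        split_ifs <;> norm_num
      · have e : I.erase i = {j} := by
          apply (eq_of_subset_of_card_le (singleton_subset_iff.2 hj) (by simpa using hc)).symm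
        rw [e, sum_singleton] at h6 ⊢
        change a z + _ = 6 at h6
        change _ ≤ a z * (a z - 1) + _
        obtain ⟨m, hm⟩ : ∃ m, ((S.erase z).filter fun y => d z y = j).card = m := ⟨_, rfl⟩
        obtain ⟨n, hn⟩ : ∃ n, a z = n := ⟨_, rfl⟩
        rw [hm, hn] at h6 ⊢
        obtain rfl : m = 6 - n := by omega
        have : n ≤ 6 := by omega
        interval_cases n <;> norm_num
    have h1 := sum_le_sum hge
    rw [sum_add_distrib, sum_const, hS, smul_eq_mul] at h1
    have h0 : ∑ z ∈ S, (if a z = 3 then 0 else 1) = 0 := by omega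
    have h3' : ∀ z ∈ S, a z = 3 := by
      intro z hz
      have := (sum_eq_zero_iff.1 h0) z hz
      by_contra h
      rw [if_neg h] at this
      exact one_ne_zero this
    have hodd : ∑ z ∈ S, ((a z : ℕ) : ZMod 2) = 1 := by
      rw [sum_congr rfl fun z hz => by rw [h3' z hz], sum_const, hS]
      decide
    have hev : ∑ p ∈ S.offDiag.filter (fun p => d p.1 p.2 = i), (1 : ZMod 2) = 0 := by
      refine sum_involution (fun p _ => p.swap) (fun _ _ => by decide) ?_ ?_ (fun _ _ => rfl)
      · intro p hp _ e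
        exact (mem_offDiag.1 (mem_filter.1 hp).1).2.2 (congrArg Prod.snd e)
      · intro p hp
        rw [mem_filter, mem_offDiag] at hp ⊢
        exact ⟨⟨hp.1.2.1, hp.1.1, hp.1.2.2.symm⟩, (hs _ _).trans hp.2⟩
    have hcard : (S.offDiag.filter (fun p => d p.1 p.2 = i)).card = ∑ z ∈ S, a z := by
      rw [card_eq_sum_card_fiberwise (f := Prod.fst) (t := S)
        (fun p hp => (mem_offDiag.1 (mem_filter.1 hp).1).1)]
      refine sum_congr rfl fun z hz => ?_
      refine card_bij (fun p _ => p.2) ?_ ?_ ?_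
      · rintro ⟨x, y⟩ hp
        simp only [mem_filter, mem_offDiag] at hp
        obtain ⟨⟨⟨-, h2, h3⟩, h4⟩, rfl⟩ := hp
        simp [h2, h3.symm, h4]
      · rintro ⟨x, y⟩ hp ⟨x', y'⟩ hp' e
        have e1 := (mem_filter.1 hp).2
        have e2 := (mem_filter.1 hp').2
        simp only at e e1 e2
        rw [e, e1, e2]
      · intro y hy
        simp only [mem_filter, mem_erase] at hy
        exact ⟨(z, y), by simp [hz, hy.1.2, hy.1.1.symm, hy.2], rfl⟩
    rw [sum_const, hcard, nsmul_eq_mul, mul_one, Nat.cast_sum, hodd] at hev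
    exact absurd hev (by decide)

end Pool.Agent.P.MP_84fce2_co.Sv
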