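import Pool.Agent.P.MP_84fce2_co.s.Iso
import Pool.Agent.P.MP_84fce2_co.s.Gal

namespace Pool.Agent.P.MP_84fce2_co.Sv

open Finset Equiv ComplexConjugate

lemma col_left (p q : ℂ) : Col p q p := by simp [Col]

lemma col_right (p q : ℂ) : Col p q q := by unfold Col; ring

lemma col_trans {p q a b c : ℂ} (ha : Col p q a) (hb : Col p q b) (hab : a ≠ b)
    (hc : Col a b c) : Col p q c := by
  unfold Col at *
  simp only [map_sub] at *
  apply mul_left_cancel₀ (sub_ne_zero.2 hab.symm)
  linear_combination (b - a) * ha + (q - p) * hc + (c - a) * (hb - ha)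

lemma col_of_line {p q a b c : ℂ} (hpq : p ≠ q) (ha : Col p q a) (hb : Col p q b)
    (hc : Col p q c) : Col a b c := by
  unfold Col at *
  simp only [map_sub] at *
  apply mul_left_cancel₀ (sub_ne_zero.2 hpq.symm)
  linear_combination (b - a) * (hc - ha) - (c - a) * (hb - ha)

lemma col_of_perp {v a b c : ℂ} (hv : v ≠ 0) (k : ℂ) (ha : a * conj v + conj a * v = k)
    (hb : b * conj v + conj b * v = k) (hc : c * conj v + conj c * v = k) : Col a b c := by
  unfold Col at *
  simp only [map_sub] at *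
  apply mul_left_cancel₀ hv
  linear_combination (b - a) * (hc - ha) - (c - a) * (hb - ha)

lemma NC.off {W : Finset ℂ} (h : NC W) {p q : ℂ} (hpq : p ≠ q) : ∃ z ∈ W, ¬ Col p q z := by
  by_contra hcon
  push Not at hcon
  obtain ⟨a, ha, b, hb, c, hc, h⟩ := h
  exact h (col_of_line hpq (hcon a ha) (hcon b hb) (hcon c hc))

lemma tri {γ : Perm ℂ} (h : Iso γ) (h1 : γ ≠ 1) {x y z : ℂ} (hxy : x ≠ y) (hxz : x ≠ z)
    (hyz : y ≠ z) (hP : Pres γ (({x, y, z} : Finset ℂ) : Set ℂ)) (hc : ¬ Col x y z) :
    ‖x - y‖ = ‖x - z‖ ∨ ‖y - x‖ = ‖y - z‖ ∨ ‖z - x‖ = ‖z - y‖ := by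
  have hx := (hP x).2 (by simp)
  have hy := (hP y).2 (by simp)
  have hz := (hP z).2 (by simp)
  simp only [coe_insert, coe_singleton, Set.mem_insert_iff, Set.mem_singleton_iff] at hx hy hz
  have n1 := h.norm_sub x y
  have n2 := h.norm_sub x z
  have n3 := h.norm_sub y z
  have e1 := norm_sub_rev x y
  have e2 := norm_sub_rev x z
  have e3 := norm_sub_rev y z
  have i1 : γ x ≠ γ y := fun e => hxy (γ.injective e)
  have i2 : γ x ≠ γ z := fun e => hxz (γ.injective e)
  have i3 : γ y ≠ γ z := fun e => hyz (γ.injective e)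
  rcases hx with hx | hx | hx <;> rcases hy with hy | hy | hy <;> rcases hz with hz | hz | hz <;>
    first
    | exact absurd (hx.trans hy.symm) i1
    | exact absurd (hx.trans hz.symm) i2
    | exact absurd (hy.trans hz.symm) i3
    | exact absurd (h.eq_one_of_three hc hx hy hz) h1
    | (rw [hx, hy] at n1; rw [hx, hz] at n2; rw [hy, hz] at n3
       first
       | exact Or.inl (by linarith)
       | exact Or.inr (Or.inl (by linarith))
       | exact Or.inr (Or.inr (by linarith)))

lemma swap_foot {γ : Perm ℂ} {u : ℂ} (h : Neg γ u) {p q a b c z : ℂ} (hab : a ≠ b)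
    (ha : Col p q a) (hb : Col p q b) (hcol : Col a b c) (h1 : γ a = b) (h2 : γ b = a)
    (h3 : γ c = c) (h4 : γ z = z) :
    a + b + c = 3 * c ∧ (z - c) * conj (q - p) + conj (z - c) * (q - p) = 0 := by
  have e1 := h.2 a c
  have e2 := h.2 b a
  have e3 := h.2 z c
  rw [h1, h3] at e1
  rw [h1, h2] at e2
  rw [h3, h4] at e3
  unfold Col at *
  simp only [map_sub] at *
  constructor
  · apply mul_left_cancel₀ (sub_ne_zero.2 hab.symm)
    linear_combination (b - a) * e1 - u * hcol + (c - a) * e2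
  · apply mul_left_cancel₀ (sub_ne_zero.2 hab.symm)
    have e4 : (z - c) * (conj b - conj a) + (conj z - conj c) * (b - a) = 0 := by
      linear_combination (conj b - conj a) * e3 - (conj z - conj c) * e2
    linear_combination (q - p) * e4 - (z - c) * (hb - ha)

lemma four {γ : Perm ℂ} (h : Iso γ) (h1 : γ ≠ 1) {p q a b c z : ℂ} (hpq : p ≠ q) (hab : a ≠ b)
    (hac : a ≠ c) (hbc : b ≠ c) (ha : Col p q a) (hb : Col p q b) (hc : Col p q c)
    (hz : ¬ Col p q z) (hP : Pres γ (({z, a, b, c} : Finset ℂ) : Set ℂ)) :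
    ∃ f, (f = a ∨ f = b ∨ f = c) ∧ a + b + c = 3 * f ∧
      (z - f) * conj (q - p) + conj (z - f) * (q - p) = 0 := by
  have hon : ∀ x, (x = a ∨ x = b ∨ x = c) → Col p q x := by
    rintro x (rfl | rfl | rfl) <;> assumption
  have hP' : ∀ x, (γ x = z ∨ γ x = a ∨ γ x = b ∨ γ x = c) ↔ (x = z ∨ x = a ∨ x = b ∨ x = c) := by
    intro x
    simpa using hP x
  have hzz : γ z = z := by
    have aux : ∀ t u v, (u = a ∨ u = b ∨ u = c) → (v = a ∨ v = b ∨ v = c) → Col p q t → u ≠ v →
        u ≠ t → v ≠ t → γ t ≠ z := by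
      intro t u v hu hv ht huv hut hvt e
      have m1 := ((hP' u).2 (Or.inr hu)).resolve_left fun e' => hut (γ.injective (e'.trans e.symm))
      have m2 := ((hP' v).2 (Or.inr hv)).resolve_left fun e' => hvt (γ.injective (e'.trans e.symm))
      have := h.col (col_of_line hpq (hon u hu) (hon v hv) ht)
      rw [e] at this
      exact hz (col_trans (hon _ m1) (hon _ m2) (fun e => huv (γ.injective e)) this)
    have e := app_inv γ z
    rcases (hP' (γ⁻¹ z)).1 (Or.inl e) with e' | e' | e' | e' <;> rw [e'] at e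
    · exact e
    · exact absurd e (aux a b c (by simp) (by simp) ha hbc hab.symm hac.symm)
    · exact absurd e (aux b a c (by simp) (by simp) hb hac hab hbc.symm)
    · exact absurd e (aux c a b (by simp) (by simp) hc hab hac hbc)
  have hne : ∀ x, (x = a ∨ x = b ∨ x = c) → x ≠ z := fun x hx e => hz (e ▸ hon x hx)
  have hin : ∀ x, (x = a ∨ x = b ∨ x = c) → (γ x = a ∨ γ x = b ∨ γ x = c) := fun x hx =>
    ((hP' x).2 (Or.inr hx)).resolve_left fun e => hne x hx (γ.injective (e.trans hzz.symm))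
  have hP3 : Pres γ (({a, b, c} : Finset ℂ) : Set ℂ) := by
    intro x
    simp only [coe_insert, coe_singleton, Set.mem_insert_iff, Set.mem_singleton_iff]
    refine ⟨fun hx => ((hP' x).1 (Or.inr hx)).resolve_left fun e => ?_, hin x⟩
    rw [e, hzz] at hx
    exact hne z hx rfl
  have hcen := h.fix_cen hP3 (by simp)
  have hcol : Col p q (cen {a, b, c}) := by
    have : cen {a, b, c} = (a + b + c) / 3 := by
      rw [cen, sum_insert (by simp [hab, hac]), sum_pair hbc,
        card_insert_of_notMem (by simp [hab, hac]), card_pair hbc]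
      norm_num [add_assoc]
    rw [this]
    unfold Col at *
    simp only [map_sub, map_div₀, map_add, map_ofNat] at *
    linear_combination (ha + hb + hc) / 3
  obtain ⟨u, hu | hu⟩ := h
  · exact absurd (hu.eq_one_of_two (p := z) (fun e => hz (e ▸ hcol)) hzz hcen) h1
  have hinv : ∀ x, γ (γ x) = x := fun x => by rw [← Perm.mul_apply, hu.invol hzz]; rfl
  have nc : ∀ x y, (x = a ∨ x = b ∨ x = c) → (y = a ∨ y = b ∨ y = c) → x ≠ y → γ x = x →
      γ y = y → False := fun x y hx hy hxy e1 e2 =>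
    h1 (Iso.eq_one_of_three ⟨u, Or.inr hu⟩
      (fun hc => hz (col_trans (hon x hx) (hon y hy) hxy hc)) e1 e2 hzz)
  rcases hin a (by simp) with e | e | e
  · rcases hin b (by simp) with e' | e' | e'
    · exact absurd (γ.injective (e.trans e'.symm)) hab
    · exact (nc a b (by simp) (by simp) hab e e').elim
    · have := swap_foot hu hbc hb hc (col_of_line hpq hb hc ha) e' (by rw [← e', hinv]) e hzz
      exact ⟨a, by simp, by linear_combination this.1, this.2⟩
  · have e' : γ b = a := by rw [← e, hinv]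
    rcases hin c (by simp) with e'' | e'' | e''
    · exact absurd (γ.injective (e'.trans e''.symm)) hbc
    · exact absurd (γ.injective (e.trans e''.symm)) hac
    · have := swap_foot hu hab ha hb (col_of_line hpq ha hb hc) e e' e'' hzz
      exact ⟨c, by simp, this.1, this.2⟩
  · have e' : γ c = a := by rw [← e, hinv]
    rcases hin b (by simp) with e'' | e'' | e''
    · exact absurd (γ.injective (e''.trans e'.symm)) hbc
    · have := swap_foot hu hac ha hc (col_of_line hpq ha hc hb) e e' e'' hzz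
      exact ⟨b, by simp, by linear_combination this.1, this.2⟩
    · exact absurd (γ.injective (e.trans e''.symm)) hab

lemma AllSym.foot {W : Finset ℂ} (hS : AllSym W) {p q a b c z : ℂ} (hpq : p ≠ q) (hab : a ≠ b)
    (hac : a ≠ c) (hbc : b ≠ c) (ha : Col p q a) (hb : Col p q b) (hc : Col p q c)
    (hz : ¬ Col p q z) (ha' : a ∈ W) (hb' : b ∈ W) (hc' : c ∈ W) (hz' : z ∈ W) :
    ∃ f, (f = a ∨ f = b ∨ f = c) ∧ a + b + c = 3 * f ∧
      (z - f) * conj (q - p) + conj (z - f) * (q - p) = 0 := by
  obtain ⟨γ, h, h1, hP⟩ := hS {z, a, b, c} (by simp [insert_subset_iff, ha', hb', hc', hz'])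
    (one_lt_card.2 ⟨a, by simp, b, by simp, hab⟩)
  exact four h h1 hpq hab hac hbc ha hb hc hz hP

open Classical in
lemma line_le {W : Finset ℂ} (hN : NC W) (hS : AllSym W) {p q : ℂ} (hpq : p ≠ q) :
    (W.filter fun x => Col p q x).card ≤ 3 := by
  by_contra hcon
  obtain ⟨z, hz', hz⟩ := hN.off hpq
  have key : ∀ L ⊆ W.filter (fun x => Col p q x), 2 < L.card →
      ∃ f ∈ L, (z - f) * conj (q - p) + conj (z - f) * (q - p) = 0 := by
    intro L hL h3
    obtain ⟨a, b, c, ha, hb, hc, hab, hac, hbc⟩ := two_lt_card_iff.1 h3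
    have ma := mem_filter.1 (hL ha)
    have mb := mem_filter.1 (hL hb)
    have mc := mem_filter.1 (hL hc)
    obtain ⟨f, hf, -, h⟩ := hS.foot hpq hab hac hbc ma.2 mb.2 mc.2 hz ma.1 mb.1 mc.1 hz'
    refine ⟨f, ?_, h⟩
    rcases hf with rfl | rfl | rfl <;> assumption
  obtain ⟨f, hf, e⟩ := key _ Subset.rfl (by omega)
  obtain ⟨g, hg, e'⟩ := key _ (erase_subset f _) (by rw [card_erase_of_mem hf]; omega)
  rw [mem_erase] at hg
  have c1 := (mem_filter.1 hf).2
  have c2 := (mem_filter.1 hg.2).2
  unfold Col at c1 c2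
  simp only [map_sub] at *
  have : (g - f) * (conj q - conj p) = 0 := by linear_combination (e - e' + (c1 - c2)) / 2
  rcases mul_eq_zero.1 this with h | h
  · exact hg.1 (sub_eq_zero.1 h)
  · exact hpq (star_injective (sub_eq_zero.1 h)).symm

lemma no_col {W : Finset ℂ} (h7 : W.card = 7) (hN : NC W) (hS : AllSym W) {a b c : ℂ}
    (ha : a ∈ W) (hb : b ∈ W) (hc : c ∈ W) (hab : a ≠ b) (hac : a ≠ c) (hbc : b ≠ c) :
    ¬ Col a b c := by
  classical
  intro hcol
  have h1 := line_le hN hS hab
  have h2 := card_filter_add_card_filter_not (s := W) (fun x => Col a b x)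
  set Z := W.filter fun x => ¬ Col a b x with hZ
  have hperp : ∀ z ∈ Z, z * conj (b - a) + conj z * (b - a) =
      (a + b + c) / 3 * conj (b - a) + conj ((a + b + c) / 3) * (b - a) := by
    intro z hz
    rw [hZ, mem_filter] at hz
    obtain ⟨f, -, e, h⟩ := hS.foot hab hab hac hbc (col_left a b) (col_right a b) hcol hz.2
      ha hb hc hz.1
    have : (a + b + c) / 3 = f := by rw [e]; ring
    rw [this]
    rw [map_sub _ z f] at h
    linear_combination h
  obtain ⟨x, hx, y, hy, hxy⟩ := one_lt_card.1 (show 1 < Z.card by omega)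
  have h3 := line_le hN hS hxy
  have : Z ⊆ W.filter fun t => Col x y t := fun t ht =>
    mem_filter.2 ⟨(mem_filter.1 ht).1, col_of_perp (sub_ne_zero.2 hab.symm) _ (hperp x hx)
      (hperp y hy) (hperp t ht)⟩
  have := card_le_card this
  omega

/-- Seven points not on a line contain an asymmetric subset. -/
theorem not_allSym {W : Finset ℂ} (h7 : W.card = 7) (hN : NC W) (hS : AllSym W) : False := by
  classical
  refine gallai (fun x y => ‖x - y‖) norm_sub_rev W h7 ?_ ?_
  · intro x hx y hy z hz hxy hxz hyz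
    obtain ⟨γ, h, h1, hP⟩ := hS {x, y, z} (by simp [insert_subset_iff, hx, hy, hz])
      (one_lt_card.2 ⟨x, by simp, y, by simp, hxy⟩)
    exact tri h h1 hxy hxz hyz hP (no_col h7 hN hS hx hy hz hxy hxz hyz)
  · intro x _ y _ hxy
    by_contra hcon
    obtain ⟨a, b, c, ha, hb, hc, hab, hac, hbc⟩ := two_lt_card_iff.1 (not_le.1 hcon)
    have key : ∀ z, ‖z - x‖ = ‖z - y‖ →
        z * conj (y - x) + conj z * (y - x) = y * conj y - x * conj x := by
      intro z hz
      have e1 := Complex.mul_conj' (z - x)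
      have e2 := Complex.mul_conj' (z - y)
      rw [hz, ← e2] at e1
      simp only [map_sub] at *
      linear_combination e1
    rw [mem_filter] at ha hb hc
    exact no_col h7 hN hS ha.1 hb.1 hc.1 hab hac hbc
      (col_of_perp (sub_ne_zero.2 hxy.symm) _ (key a ha.2.2.2) (key b hb.2.2.2) (key c hc.2.2.2))

end Pool.Agent.P.MP_84fce2_co.Sv
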