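import Mathlib

namespace Pool.Agent.P.MP_84fce2_co.Sv

open Finset Equiv ComplexConjugate

/-- Orientation preserving isometry with linear part `a`. -/
def Pos (γ : Perm ℂ) (a : ℂ) : Prop := a * conj a = 1 ∧ ∀ z w, γ z - γ w = a * (z - w)

/-- Orientation reversing isometry with linear part `z ↦ a * conj z`. -/
def Neg (γ : Perm ℂ) (a : ℂ) : Prop := a * conj a = 1 ∧ ∀ z w, γ z - γ w = a * conj (z - w)

def Iso (γ : Perm ℂ) : Prop := ∃ a, Pos γ a ∨ Neg γ a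

def Pres (γ : Perm ℂ) (S : Set ℂ) : Prop := ∀ x, γ x ∈ S ↔ x ∈ S

def Col (p q r : ℂ) : Prop := (q - p) * conj (r - p) = conj (q - p) * (r - p)

lemma app_inv {X : Type*} (γ : Perm X) (x : X) : γ (γ⁻¹ x) = x := by simp

lemma inv_app {X : Type*} (γ : Perm X) (x : X) : γ⁻¹ (γ x) = x := by simp

lemma unit_mul {a b : ℂ} (ha : a * conj a = 1) (hb : b * conj b = 1) :
    a * b * conj (a * b) = 1 := by
  rw [map_mul]; linear_combination (b * conj b) * ha + hb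

lemma unit_conj {a : ℂ} (ha : a * conj a = 1) : conj a * conj (conj a) = 1 := by
  rw [Complex.conj_conj]; linear_combination ha

lemma unit_ne {a : ℂ} (ha : a * conj a = 1) : a ≠ 0 := by
  rintro rfl; simp at ha

lemma unit_norm {a : ℂ} (ha : a * conj a = 1) : ‖a‖ = 1 := by
  have h := congrArg norm ha
  rw [norm_mul, Complex.norm_conj, norm_one] at h
  nlinarith [norm_nonneg a]

lemma Pos.mul {γ δ : Perm ℂ} {a b : ℂ} (h : Pos γ a) (h' : Pos δ b) : Pos (γ * δ) (a * b) :=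
  ⟨unit_mul h.1 h'.1, fun z w => by rw [Perm.mul_apply, Perm.mul_apply, h.2, h'.2]; ring⟩

lemma Pos.mul_neg {γ δ : Perm ℂ} {a b : ℂ} (h : Pos γ a) (h' : Neg δ b) : Neg (γ * δ) (a * b) :=
  ⟨unit_mul h.1 h'.1, fun z w => by rw [Perm.mul_apply, Perm.mul_apply, h.2, h'.2]; ring⟩

lemma Neg.mul_pos {γ δ : Perm ℂ} {a b : ℂ} (h : Neg γ a) (h' : Pos δ b) :
    Neg (γ * δ) (a * conj b) :=
  ⟨unit_mul h.1 (unit_conj h'.1), fun z w => by
    rw [Perm.mul_apply, Perm.mul_apply, h.2, h'.2, map_mul]; ring⟩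

lemma Neg.mul {γ δ : Perm ℂ} {a b : ℂ} (h : Neg γ a) (h' : Neg δ b) :
    Pos (γ * δ) (a * conj b) :=
  ⟨unit_mul h.1 (unit_conj h'.1), fun z w => by
    rw [Perm.mul_apply, Perm.mul_apply, h.2, h'.2, map_mul, Complex.conj_conj]; ring⟩

lemma Pos.inv {γ : Perm ℂ} {a : ℂ} (h : Pos γ a) : Pos γ⁻¹ (conj a) :=
  ⟨unit_conj h.1, fun z w => by
    have := h.2 (γ⁻¹ z) (γ⁻¹ w)
    simp only [app_inv] at this
    rw [this]
    linear_combination (-(γ⁻¹ z - γ⁻¹ w)) * h.1⟩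

lemma Neg.inv {γ : Perm ℂ} {a : ℂ} (h : Neg γ a) : Neg γ⁻¹ a :=
  ⟨h.1, fun z w => by
    have := h.2 (γ⁻¹ z) (γ⁻¹ w)
    simp only [app_inv] at this
    rw [this, map_mul, Complex.conj_conj]
    linear_combination (-(γ⁻¹ z - γ⁻¹ w)) * h.1⟩

lemma pos_one : Pos 1 1 := ⟨by simp, fun z w => by simp⟩

lemma Iso.mul {γ δ : Perm ℂ} (h : Iso γ) (h' : Iso δ) : Iso (γ * δ) := by
  obtain ⟨a, h | h⟩ := h <;> obtain ⟨b, h' | h'⟩ := h'
  · exact ⟨_, Or.inl (h.mul h')⟩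
  · exact ⟨_, Or.inr (h.mul_neg h')⟩
  · exact ⟨_, Or.inr (h.mul_pos h')⟩
  · exact ⟨_, Or.inl (h.mul h')⟩

lemma Iso.inv {γ : Perm ℂ} (h : Iso γ) : Iso γ⁻¹ := by
  obtain ⟨a, h | h⟩ := h
  · exact ⟨_, Or.inl h.inv⟩
  · exact ⟨_, Or.inr h.inv⟩

lemma iso_one : Iso 1 := ⟨1, Or.inl pos_one⟩

/-- The isometry group. -/
def isoG : Subgroup (Perm ℂ) where
  carrier := {γ | Iso γ}
  mul_mem' := Iso.mul
  one_mem' := iso_one
  inv_mem' := Iso.inv

lemma Iso.norm_sub {γ : Perm ℂ} (h : Iso γ) (z w : ℂ) : ‖γ z - γ w‖ = ‖z - w‖ := by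
  obtain ⟨a, h | h⟩ := h
  · rw [h.2, norm_mul, unit_norm h.1, one_mul]
  · rw [h.2, norm_mul, unit_norm h.1, one_mul, Complex.norm_conj]

lemma Pos.eq_one {γ : Perm ℂ} {a : ℂ} (h : Pos γ a) {p : ℂ} (ha : a = 1) (hp : γ p = p) :
    γ = 1 := by
  ext z
  have := h.2 z p
  rw [ha, hp] at this
  simp only [Perm.coe_one, id_eq]
  linear_combination this

lemma Pos.eq_one_of_two {γ : Perm ℂ} {a : ℂ} (h : Pos γ a) {p q : ℂ} (hpq : p ≠ q)
    (hp : γ p = p) (hq : γ q = q) : γ = 1 := by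
  refine h.eq_one ?_ hp
  have := h.2 p q
  rw [hp, hq] at this
  have h2 : (a - 1) * (p - q) = 0 := by linear_combination -this
  exact sub_eq_zero.1 ((mul_eq_zero.1 h2).resolve_right (sub_ne_zero.2 hpq))

lemma Neg.invol {γ : Perm ℂ} {a : ℂ} (h : Neg γ a) {p : ℂ} (hp : γ p = p) : γ * γ = 1 :=
  (h.mul h).eq_one h.1 (p := p) (by rw [Perm.mul_apply, hp, hp])

lemma Neg.ne_one {γ : Perm ℂ} {a : ℂ} (h : Neg γ a) : γ ≠ 1 := by
  rintro rfl
  have h1 := h.2 1 0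
  have h2 := h.2 Complex.I 0
  simp only [Perm.coe_one, id_eq, sub_zero, map_one, mul_one, Complex.conj_I] at h1 h2
  rw [← h1] at h2
  have : (2 : ℂ) * Complex.I = 0 := by linear_combination h2
  simp at this

lemma Pos.invol {γ : Perm ℂ} {a : ℂ} (h : Pos γ a) (ha : a = -1) {p : ℂ} (hp : γ p = p) :
    γ * γ = 1 :=
  (h.mul h).eq_one (by rw [ha]; ring) (p := p) (by rw [Perm.mul_apply, hp, hp])

lemma Iso.eq_one_of_three {γ : Perm ℂ} (h : Iso γ) {p q r : ℂ} (hc : ¬ Col p q r)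
    (hp : γ p = p) (hq : γ q = q) (hr : γ r = r) : γ = 1 := by
  obtain ⟨a, h | h⟩ := h
  · refine h.eq_one_of_two (p := p) (q := q) ?_ hp hq
    rintro rfl
    exact hc (by simp [Col])
  · exfalso
    have h1 := h.2 q p
    have h2 := h.2 r p
    rw [hp, hq] at h1
    rw [hp, hr] at h2
    apply hc
    unfold Col
    linear_combination conj (r - p) * h1 - conj (q - p) * h2

lemma Iso.col {γ : Perm ℂ} (h : Iso γ) {p q r : ℂ} (hc : Col p q r) :
    Col (γ p) (γ q) (γ r) := by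
  unfold Col at *
  obtain ⟨a, h | h⟩ := h
  · rw [h.2, h.2, map_mul, map_mul]
    linear_combination (a * conj a) * hc
  · rw [h.2, h.2, map_mul, map_mul, Complex.conj_conj, Complex.conj_conj]
    linear_combination -(a * conj a) * hc

lemma Pres.mul {γ δ : Perm ℂ} {S : Set ℂ} (h : Pres γ S) (h' : Pres δ S) : Pres (γ * δ) S :=
  fun x => by rw [Perm.mul_apply, h, h']

lemma Pres.inv {γ : Perm ℂ} {S : Set ℂ} (h : Pres γ S) : Pres γ⁻¹ S :=
  fun x => by rw [← h, app_inv]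

lemma Pres.sum {γ : Perm ℂ} {B : Finset ℂ} (h : Pres γ B) {M : Type*} [AddCommMonoid M]
    (f : ℂ → M) : ∑ x ∈ B, f (γ x) = ∑ x ∈ B, f x :=
  Finset.sum_equiv γ (fun x => by have := h x; simpa using this.symm) (fun _ _ => rfl)

/-- The centroid. -/
noncomputable def cen (B : Finset ℂ) : ℂ := (∑ x ∈ B, x) / B.card

lemma sum_sub_cen {B : Finset ℂ} (hB : B.Nonempty) : ∑ x ∈ B, (x - cen B) = 0 := by
  have : (B.card : ℂ) ≠ 0 := by exact_mod_cast hB.card_pos.ne'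
  rw [sum_sub_distrib, sum_const, nsmul_eq_mul, cen]
  field_simp
  ring

/-- The first moment about a fixed point is fixed. -/
lemma Iso.moment {γ : Perm ℂ} (h : Iso γ) {B : Finset ℂ} (hB : Pres γ B) (o v : ℂ)
    (hv : ∑ x ∈ B, (x - o) = v - o) : γ v - γ o = ∑ x ∈ B, (x - γ o) := by
  rw [← hB.sum (fun x => x - γ o)]
  obtain ⟨a, h | h⟩ := h
  · simp only [h.2, ← mul_sum, hv]
  · simp only [h.2, ← mul_sum, ← map_sum, hv]

lemma Iso.fix_cen {γ : Perm ℂ} (h : Iso γ) {B : Finset ℂ} (hB : Pres γ B) (hne : B.Nonempty) :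
    γ (cen B) = cen B := by
  have h0 := sum_sub_cen hne
  have h1 := h.moment hB (cen B) (cen B) (by rw [h0, sub_self])
  have hc : (B.card : ℂ) ≠ 0 := by exact_mod_cast hne.card_pos.ne'
  rw [sum_sub_distrib, sum_const, nsmul_eq_mul] at h0 h1
  have : (B.card : ℂ) * (γ (cen B) - cen B) = 0 := by linear_combination h1 + h0
  exact sub_eq_zero.1 ((mul_eq_zero.1 this).resolve_left hc)

/-- Translation. -/
def tr (v : ℂ) : Perm ℂ := Equiv.addRight v

@[simp] lemma tr_apply (v z : ℂ) : tr v z = z + v := rfl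

lemma tr_pos (v : ℂ) : Pos (tr v) 1 := ⟨by simp, fun z w => by simp⟩

lemma Pos.tr_form {γ : Perm ℂ} (h : Pos γ 1) (z : ℂ) : γ z = z + γ 0 := by
  have := h.2 z 0
  linear_combination this

/-- The reflection `z ↦ o + u * conj (z - o)`. -/
noncomputable def rf (o u : ℂ) (hu : u * conj u = 1) : Perm ℂ :=
  Function.Involutive.toPerm (fun z => o + u * conj (z - o)) (fun z => by
    simp only [add_sub_cancel_left, map_mul, Complex.conj_conj]
    linear_combination (z - o) * hu)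

lemma rf_apply (o u : ℂ) (hu : u * conj u = 1) (z : ℂ) : rf o u hu z = o + u * conj (z - o) := rfl

lemma rf_neg (o u : ℂ) (hu : u * conj u = 1) : Neg (rf o u hu) u :=
  ⟨hu, fun z w => by simp only [rf_apply, map_sub]; ring⟩

/-- Every extension has a symmetry. -/
def Bad (C : Set ℂ) (W : Finset ℂ) : Prop :=
  ∀ T ⊆ W, ∃ γ, Iso γ ∧ γ ≠ 1 ∧ Pres γ (C ∪ ↑T)

/-- Not contained in a line. -/
def NC (W : Finset ℂ) : Prop := ∃ p ∈ W, ∃ q ∈ W, ∃ r ∈ W, ¬ Col p q r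

/-- Every subset with at least two points has a symmetry. -/
def AllSym (W : Finset ℂ) : Prop :=
  ∀ P ⊆ W, 2 ≤ P.card → ∃ γ, Iso γ ∧ γ ≠ 1 ∧ Pres γ P

end Pool.Agent.P.MP_84fce2_co.Sv
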