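import Pool.Agent.P.MP_84fce2_co.s.Mom
import Pool.Agent.P.MP_84fce2_co.Defs

namespace Pool.Agent.P.MP_84fce2_co.Sv

open Finset Equiv ComplexConjugate

lemma exists_noncol {W : Set ℂ} (hstab : ∀ γ, Iso γ → (∀ w ∈ W, γ w = w) → γ = 1) :
    ∃ p ∈ W, ∃ q ∈ W, ∃ r ∈ W, ¬ Col p q r := by
  by_contra hcon
  push Not at hcon
  by_cases h2 : ∃ p ∈ W, ∃ q ∈ W, p ≠ q
  · obtain ⟨p, hp, q, hq, hpq⟩ := h2
    have hv : q - p ≠ 0 := sub_ne_zero.2 hpq.symm
    have hv' : conj (q - p) ≠ 0 := by rwa [Ne, map_eq_zero]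
    have hu : (q - p) / conj (q - p) * conj ((q - p) / conj (q - p)) = 1 := by
      rw [map_div₀, Complex.conj_conj]
      field_simp
    refine (rf_neg p _ hu).ne_one (hstab _ ⟨_, Or.inr (rf_neg p _ hu)⟩ fun w hw => ?_)
    have := hcon p hp q hq w hw
    unfold Col at this
    rw [rf_apply, div_mul_eq_mul_div, this, mul_div_cancel_left₀ _ hv']
    ring
  · push Not at h2
    rcases W.eq_empty_or_nonempty with e | ⟨p, hp⟩
    · exact (rf_neg 0 1 (by simp)).ne_one
        (hstab _ ⟨_, Or.inr (rf_neg 0 1 (by simp))⟩ (by simp [e]))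
    · refine (rf_neg p 1 (by simp)).ne_one
        (hstab _ ⟨_, Or.inr (rf_neg p 1 (by simp))⟩ fun w hw => ?_)
      rw [h2 w hw p hp, rf_apply]
      simp

lemma complex_upper (W : Set ℂ) (hW : ((7 : ℕ) : ℕ∞) ≤ W.encard)
    (hstab : ∀ γ, Iso γ → (∀ w ∈ W, γ w = w) → γ = 1) (C₀ : Set ℂ) :
    ∃ C : Set ℂ, (∀ x ∉ W, (x ∈ C ↔ x ∈ C₀)) ∧ ∀ γ, Iso γ → Pres γ C → γ = 1 := by
  classical
  obtain ⟨p, hp, q, hq, r, hr, hc⟩ := exists_noncol hstab
  obtain ⟨F, hF1, hF2, hF3⟩ := Set.exists_superset_subset_encard_eq (s := {p, q, r}) (t := W)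
    (k := ((7 : ℕ) : ℕ∞)) (by simp [Set.insert_subset_iff, hp, hq, hr])
    (le_trans (Set.encard_insert_le _ _) (le_trans (add_le_add_left (Set.encard_insert_le _ _) _)
      (by simp; norm_num))) hW
  have hfin : F.Finite := Set.finite_of_encard_eq_coe hF3
  have h7 : hfin.toFinset.card = 7 := by
    have := hfin.encard_eq_coe_toFinset_card
    rw [hF3] at this
    exact_mod_cast this.symm
  have hN : NC hfin.toFinset :=
    ⟨p, by simpa using hF1 (by simp), q, by simpa using hF1 (by simp), r,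
      by simpa using hF1 (by simp), hc⟩
  have := not_bad (C := C₀ \ F) h7 hN (fun x hx h => h.2 (by simpa using hx))
  unfold Bad at this
  push Not at this
  obtain ⟨T, hT, h⟩ := this
  refine ⟨C₀ \ F ∪ ↑T, fun x hx => ?_, fun γ h1 h2 => by_contra fun e => h γ h1 e h2⟩
  have h1 : x ∉ F := fun h => hx (hF2 h)
  have h2 : x ∉ T := fun h => h1 (by simpa using hT h)
  simp [h1, h2]

lemma iso_of_isometry (γ : ℂ ≃ᵢ ℂ) : Iso γ.toEquiv := by
  obtain ⟨a, ha | ha⟩ := linear_isometry_complex γ.toRealLinearIsometryEquiv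
  · have f : ∀ z, γ z = a * z + γ 0 := fun z => by
      have := congrArg (fun f : ℂ ≃ₗᵢ[ℝ] ℂ => f z) ha
      simp only [IsometryEquiv.toRealLinearIsometryEquiv_apply, rotation_apply] at this
      linear_combination this
    refine ⟨a, Or.inl ⟨by simp [Complex.mul_conj'], fun z w => ?_⟩⟩
    change γ z - γ w = _
    rw [f z, f w]; ring
  · have f : ∀ z, γ z = a * conj z + γ 0 := fun z => by
      have := congrArg (fun f : ℂ ≃ₗᵢ[ℝ] ℂ => f z) ha
      simp only [IsometryEquiv.toRealLinearIsometryEquiv_apply, LinearIsometryEquiv.trans_apply,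
        Complex.conjLIE_apply, rotation_apply] at this
      linear_combination this
    refine ⟨a, Or.inr ⟨by simp [Complex.mul_conj'], fun z w => ?_⟩⟩
    change γ z - γ w = _
    rw [f z, f w, map_sub]; ring

lemma isometry_of_iso {γ : Perm ℂ} (h : Iso γ) : Isometry γ :=
  Isometry.of_dist_eq fun x y => by rw [dist_eq_norm, dist_eq_norm, h.norm_sub]

/-- The plane as the complex numbers. -/
noncomputable def phi : ℂ ≃ᵢ EuclideanSpace ℝ (Fin 2) :=
  Complex.orthonormalBasisOneI.repr.toIsometryEquiv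

/-- Transport of an isometry of the complex numbers. -/
noncomputable def toPlane {γ : Perm ℂ} (h : Iso γ) :
    EuclideanSpace ℝ (Fin 2) ≃ᵢ EuclideanSpace ℝ (Fin 2) :=
  phi.symm.trans ((IsometryEquiv.mk γ (isometry_of_iso h)).trans phi)

lemma toPlane_apply {γ : Perm ℂ} (h : Iso γ) (x : EuclideanSpace ℝ (Fin 2)) :
    toPlane h x = phi (γ (phi.symm x)) := rfl

lemma toPlane_eq_one {γ : Perm ℂ} (h : Iso γ) (e : toPlane h = 1) : γ = 1 := by
  ext z
  have := congrArg (fun f : EuclideanSpace ℝ (Fin 2) ≃ᵢ EuclideanSpace ℝ (Fin 2) => f (phi z)) e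
  simpa [toPlane_apply] using this

/-- Transport of an isometry of the plane. -/
noncomputable def ofPlane (γ : EuclideanSpace ℝ (Fin 2) ≃ᵢ EuclideanSpace ℝ (Fin 2)) : Perm ℂ :=
  (phi.trans (γ.trans phi.symm)).toEquiv

lemma ofPlane_apply (γ : EuclideanSpace ℝ (Fin 2) ≃ᵢ EuclideanSpace ℝ (Fin 2)) (z : ℂ) :
    ofPlane γ z = phi.symm (γ (phi z)) := rfl

lemma ofPlane_eq_one {γ : EuclideanSpace ℝ (Fin 2) ≃ᵢ EuclideanSpace ℝ (Fin 2)}
    (e : ofPlane γ = 1) : γ = 1 := by
  ext x : 1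
  have := congrArg (fun f : Perm ℂ => phi (f (phi.symm x))) e
  simpa [ofPlane_apply] using this

lemma fin2_ext {a b : Fin 2} (h : a = 1 ↔ b = 1) : a = b := by
  revert a b
  decide

lemma plane_upper (W : Set (EuclideanSpace ℝ (Fin 2))) (hW : ((7 : ℕ) : ℕ∞) ≤ W.encard)
    (hstab : ∀ γ : EuclideanSpace ℝ (Fin 2) ≃ᵢ EuclideanSpace ℝ (Fin 2),
      (∀ w ∈ W, γ w = w) → γ = 1) (c : EuclideanSpace ℝ (Fin 2) → Fin 2) :
    ∃ c' : EuclideanSpace ℝ (Fin 2) → Fin 2, (∀ x ∉ W, c' x = c x) ∧ Distinguishing c' := by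
  classical
  obtain ⟨C, hC, hd⟩ := complex_upper (phi ⁻¹' W)
    (by rwa [Set.encard_preimage_of_bijective phi.bijective])
    (fun γ hγ hfix => toPlane_eq_one hγ (hstab _ fun w hw => by
      rw [toPlane_apply, hfix _ (by simpa using hw)]; simp)) {z | c (phi z) = 1}
  refine ⟨fun x => if phi.symm x ∈ C then 1 else 0, fun x hx => fin2_ext ?_, fun γ hγ => ?_⟩
  · have := hC (phi.symm x) (by simpa using hx)
    simp [this]
  · refine ofPlane_eq_one (hd _ (iso_of_isometry _) fun z => ?_)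
    have h := congrFun hγ (phi z)
    simp only [Function.comp_apply, IsometryEquiv.symm_apply_apply] at h
    rw [ofPlane_apply]
    by_cases h1 : phi.symm (γ (phi z)) ∈ C <;> by_cases h2 : z ∈ C <;> simp_all

lemma mirror5 : ∀ f : Fin 5 → Bool, ∃ a : Fin 5, ∀ j, f (a - j) = f j := by decide

/-- The regular pentagon with its centre. -/
lemma complex_lower : ∃ W : Finset ℂ, W.card = 6 ∧ NC W ∧
    ∀ C : Set ℂ, C ⊆ ↑W → ∃ γ, Iso γ ∧ γ ≠ 1 ∧ Pres γ C := by
  classical
  obtain ⟨ζ, hζ⟩ : ∃ ζ : ℂ, IsPrimitiveRoot ζ 5 := ⟨_, Complex.isPrimitiveRoot_exp 5 (by norm_num)⟩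
  have h5 := hζ.pow_eq_one
  have h0 : ζ ≠ 0 := hζ.ne_zero (by norm_num)
  have hu : ζ * conj ζ = 1 := by
    rw [Complex.mul_conj', hζ.norm'_eq_one (by norm_num)]; simp
  have hc : conj ζ = ζ ^ 4 := mul_left_cancel₀ h0 (by linear_combination hu - h5)
  let v : Fin 5 → ℂ := fun j => ζ ^ (j : ℕ)
  have hinj : Function.Injective v := fun i j e => Fin.ext (hζ.pow_inj i.2 j.2 e)
  have hv0 : ∀ j, v j ≠ 0 := fun j => pow_ne_zero _ h0
  have hunit : ∀ a, v a * conj (v a) = 1 := fun a => by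
    simp only [v, map_pow]; rw [← mul_pow, hu, one_pow]
  have hrf : ∀ a j, v a * conj (v j) = v (a - j) := by
    intro a j
    simp only [v, map_pow, hc]
    rw [← pow_mul, ← pow_add, pow_eq_pow_mod _ h5]
    congr 1
    revert a j
    decide
  refine ⟨insert 0 (univ.image v), ?_, ?_, fun C hC => ?_⟩
  · rw [card_insert_of_notMem (by simpa using hv0), card_image_of_injective _ hinj]
    simp
  · refine ⟨0, by simp, v 0, by simp, v 1, by simp, fun h => ?_⟩
    unfold Col at h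
    simp only [v, sub_zero, Fin.val_zero, pow_zero, Fin.val_one, pow_one, one_mul, map_one,
      hc] at h
    have := hζ.pow_inj (i := 4) (j := 1) (by norm_num) (by norm_num) (by simpa using h)
    omega
  · obtain ⟨a, ha⟩ := mirror5 fun j => decide (v j ∈ C)
    have hn := rf_neg 0 (v a) (hunit a)
    have key : ∀ x ∈ C, rf 0 (v a) (hunit a) x ∈ C := by
      intro x hx
      have := hC hx
      simp only [coe_insert, coe_image, coe_univ, Set.image_univ, Set.mem_insert_iff,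
        Set.mem_range] at this
      rcases this with rfl | ⟨j, rfl⟩
      · simpa [rf_apply] using hx
      · rw [rf_apply, zero_add, sub_zero, hrf]
        have := ha j
        simp only [decide_eq_decide] at this
        exact this.2 hx
    refine ⟨_, ⟨_, Or.inr hn⟩, hn.ne_one, fun x => ⟨fun hx => ?_, key x⟩⟩
    have := key _ hx
    rwa [← Perm.mul_apply, hn.invol (p := 0) (by simp [rf_apply])] at this

theorem main : ∃ k : ℕ,
    IsLeast {k : ℕ | ∃ c : EuclideanSpace ℝ (Fin 2) → Fin k, Distinguishing c} k ∧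
    IsLeast {n : ℕ | ∀ W : Set (EuclideanSpace ℝ (Fin 2)), (n : ℕ∞) ≤ W.encard →
      (∀ γ : EuclideanSpace ℝ (Fin 2) ≃ᵢ EuclideanSpace ℝ (Fin 2), (∀ w ∈ W, γ w = w) → γ = 1) →
      ∀ c₀ : (Wᶜ : Set (EuclideanSpace ℝ (Fin 2))) → Fin k,
        ∃ c : EuclideanSpace ℝ (Fin 2) → Fin k,
          (∀ x : (Wᶜ : Set (EuclideanSpace ℝ (Fin 2))), c x = c₀ x) ∧ Distinguishing c} 7 := by
  classical
  refine ⟨2, ⟨?_, ?_⟩, fun W hW hstab c₀ => ?_, fun n hn => ?_⟩
  · obtain ⟨c, -, hc⟩ := plane_upper Set.univ (by simp [Set.encard_univ])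
      (fun γ h => IsometryEquiv.ext fun x => h x trivial) (fun _ => 0)
    exact ⟨c, hc⟩
  · rintro k ⟨c, hc⟩
    by_contra hk
    have hk' : k ≤ 1 := by omega
    have : Subsingleton (Fin k) := Fin.subsingleton_iff_le_one.2 hk'
    have := hc (IsometryEquiv.addRight (EuclideanSpace.single 0 1)) (Subsingleton.elim _ _)
    have h := congrArg (fun f : EuclideanSpace ℝ (Fin 2) ≃ᵢ EuclideanSpace ℝ (Fin 2) =>
      f 0 0) this
    simp at h
  · obtain ⟨c, hc, hd⟩ := plane_upper W hW hstab fun x => if h : x ∈ W then 0 else c₀ ⟨x, h⟩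
    refine ⟨c, fun x => ?_, hd⟩
    have hx : (x : EuclideanSpace ℝ (Fin 2)) ∉ W := x.2
    rw [hc x hx, dif_neg hx]
  · by_contra hlt
    obtain ⟨W, h6, ⟨p, hp, q, hq, r, hr, hc⟩, hW⟩ := complex_lower
    obtain ⟨c, hc0, hd⟩ := hn (phi '' ↑W)
      (by
        rw [phi.injective.encard_image, Set.encard_coe_eq_coe_finsetCard, h6]
        exact_mod_cast (show n ≤ 6 by omega))
      (fun γ h => by
        have f : ∀ w ∈ W, ofPlane γ w = w := fun w hw => by
          rw [ofPlane_apply, h _ (Set.mem_image_of_mem _ hw)]; simp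
        exact ofPlane_eq_one ((iso_of_isometry _).eq_one_of_three hc (f p hp) (f q hq) (f r hr)))
      (fun _ => 0)
    obtain ⟨γ, h1, h2, h3⟩ := hW {z | c (phi z) = 1} (fun z hz => by
      by_contra hz'
      have := hc0 ⟨phi z, fun ⟨y, hy, e⟩ => hz' (phi.injective e ▸ hy)⟩
      simp only [Set.mem_ofPred_eq] at hz
      rw [hz] at this
      exact absurd this (by decide))
    refine h2 (toPlane_eq_one h1 (hd _ (funext fun x => fin2_ext ?_)))
    have := h3 (phi.symm x)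
    simpa [toPlane_apply] using this

end Pool.Agent.P.MP_84fce2_co.Sv
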