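import Pool.Agent.P.MP_84fce2_co.s.Tr
import Pool.Agent.P.MP_84fce2_co.s.Geo

namespace Pool.Agent.P.MP_84fce2_co.Sv

open Finset Equiv ComplexConjugate

open Classical in
noncomputable def chi (S : Set ℂ) (x : ℂ) : ℂ := if x ∈ S then 1 else 0

lemma chi_pos {S : Set ℂ} {x : ℂ} (h : x ∈ S) : chi S x = 1 := if_pos h

lemma chi_neg {S : Set ℂ} {x : ℂ} (h : x ∉ S) : chi S x = 0 := if_neg h

lemma chi_congr {S : Set ℂ} {x y : ℂ} (h : x ∈ S ↔ y ∈ S) : chi S x = chi S y := by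
  by_cases hx : x ∈ S
  · rw [chi_pos hx, chi_pos (h.1 hx)]
  · rw [chi_neg hx, chi_neg fun hy => hx (h.2 hy)]

lemma conj_chi (S : Set ℂ) (x : ℂ) : conj (chi S x) = chi S x := by
  unfold chi
  split_ifs <;> simp

/-- Test functions of spin `k` about `o`. -/
def Spin (o : ℂ) (k : ℕ) (h : ℂ → ℂ) : Prop :=
  ∀ γ u, γ o = o → (Pos γ u → ∀ x, h (γ x) = u ^ k * h x) ∧
    (Neg γ u → ∀ x, h (γ x) = u ^ k * conj (h x))

lemma finsum_chi (T : Finset ℂ) (f : ℂ → ℂ) : ∑ᶠ x, chi T x * f x = ∑ x ∈ T, f x := by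
  rw [finsum_eq_sum_of_support_subset (s := T)]
  · exact sum_congr rfl fun x hx => by simp [chi, hx]
  · intro x hx
    by_contra h
    exact hx (by simp only [chi, if_neg h, zero_mul])

lemma fin_chi (T : Finset ℂ) (f : ℂ → ℂ) :
    Function.HasFiniteSupport fun x => chi T x * f x := by
  refine T.finite_toSet.subset fun x hx => ?_
  by_contra h
  exact hx (by simp only [chi, if_neg h, zero_mul])

/-- Renormalised moments. -/
lemma moment {C : Set ℂ} {ρ : Perm ℂ} {a o : ℂ} {k : ℕ} {h : ℂ → ℂ} (hρ : Pos ρ a) (ho : ρ o = o)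
    (ha : a ^ k ≠ 1) (hC : Alm C ρ) (hh : Spin o k h) :
    ∃ s : ℂ, ∀ T : Finset ℂ, (∀ x ∈ T, x ∉ C) → ∀ γ u, γ o = o → Pres γ (C ∪ ↑T) →
      (Pos γ u → s + ∑ x ∈ T, h x = u ^ k * (s + ∑ x ∈ T, h x)) ∧
      (Neg γ u → s + ∑ x ∈ T, h x = u ^ k * conj (s + ∑ x ∈ T, h x)) := by
  have hak : a ^ k * conj a ^ k = 1 := by rw [← mul_pow, hρ.1, one_pow]
  have ha' : conj a ^ k - 1 ≠ 0 := by
    intro e
    rw [sub_eq_zero.1 e, mul_one] at hak
    exact ha hak
  let Ψ : Set ℂ → ℂ := fun S => ∑ᶠ x, (chi S (ρ x) - chi S x) * h x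
  have hfin : ∀ S, Alm S ρ → ∀ f : ℂ → ℂ,
      Function.HasFiniteSupport fun x => (chi S (ρ x) - chi S x) * f x := by
    intro S hS f
    refine Set.Finite.subset hS fun x hx e => hx ?_
    simp only [chi_congr e, sub_self, zero_mul]
  have hρo' : ρ⁻¹ o = o := by rw [Perm.inv_eq_iff_eq, ho]
  refine ⟨Ψ C / (conj a ^ k - 1), fun T hT γ u hγo hγ => ?_⟩
  have hsum : Ψ (C ∪ ↑T) = (conj a ^ k - 1) * (Ψ C / (conj a ^ k - 1) + ∑ x ∈ T, h x) := by
    have e1 : ∀ x, chi (C ∪ ↑T) x = chi C x + chi T x := by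
      intro x
      by_cases h1 : x ∈ T
      · rw [chi_pos (Or.inr h1), chi_neg (hT x h1), chi_pos h1, zero_add]
      · by_cases h2 : x ∈ C
        · rw [chi_pos (Or.inl h2), chi_pos h2, chi_neg h1, add_zero]
        · rw [chi_neg (fun h => h.elim h2 h1), chi_neg h2, chi_neg h1, add_zero]
    have e2 : ∑ᶠ x, chi T (ρ x) * h x = conj a ^ k * ∑ x ∈ T, h x := by
      rw [← finsum_comp_equiv ρ⁻¹]
      simp only [app_inv]
      rw [finsum_chi, mul_sum]
      exact sum_congr rfl fun x _ => (hh _ _ hρo').1 hρ.inv x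
    have f2 : Function.HasFiniteSupport fun x => chi T (ρ x) * h x := by
      refine (T.finite_toSet.preimage ρ.injective.injOn).subset fun x hx => ?_
      by_contra h'
      exact hx (by simp only [chi_neg (S := T) (x := ρ x) h', zero_mul])
    have e3 : Ψ (C ∪ ↑T) = Ψ C + (∑ᶠ x, chi T (ρ x) * h x - ∑ᶠ x, chi T x * h x) := by
      have f3 : Function.HasFiniteSupport fun x => chi T (ρ x) * h x - chi T x * h x :=
        f2.sub (fin_chi T h)
      simp only [Ψ]
      rw [← finsum_sub_distrib f2 (fin_chi T h), ← finsum_add_distrib (hfin C hC h) f3]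
      exact finsum_congr fun x => by simp only [e1]; ring
    rw [e3, e2, finsum_chi]
    field_simp
  set S := Ψ C / (conj a ^ k - 1) + ∑ x ∈ T, h x with hS
  have hA := hC.union T
  constructor
  · intro hp
    have hcomm : ∀ x, ρ (γ x) = γ (ρ x) := by
      intro x
      have e1 := hρ.2 (γ x) o
      have e2 := hp.2 x o
      have e3 := hp.2 (ρ x) o
      have e4 := hρ.2 x o
      rw [ho] at e1 e4
      rw [hγo] at e2 e3
      linear_combination e1 + a * e2 - e3 - u * e4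
    have : Ψ (C ∪ ↑T) = u ^ k * Ψ (C ∪ ↑T) := by
      simp only [Ψ]
      rw [mul_finsum' _ _ (hfin _ hA h), ← finsum_comp_equiv γ]
      refine finsum_congr fun x => ?_
      rw [hcomm, chi_congr (hγ _), chi_congr (hγ _), (hh γ u hγo).1 hp]
      ring
    rw [hsum] at this
    exact mul_left_cancel₀ ha' (by linear_combination this)
  · intro hn
    have hcomm : ∀ x, ρ (γ (ρ x)) = γ x := by
      intro x
      have e1 := hρ.2 (γ (ρ x)) o
      have e2 := hn.2 x o
      have e3 := hn.2 (ρ x) o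
      have e4 := hρ.2 x o
      rw [ho] at e1 e4
      rw [hγo] at e2 e3
      rw [e4, map_mul] at e3
      linear_combination e1 + a * e3 - e2 + u * conj (x - o) * hρ.1
    have : Ψ (C ∪ ↑T) = -(u ^ k * conj a ^ k) * conj (Ψ (C ∪ ↑T)) := by
      simp only [Ψ]
      rw [map_finsum (starRingEnd ℂ) (hfin _ hA h), mul_finsum', ← finsum_comp_equiv (γ * ρ)]
      · refine finsum_congr fun x => ?_
        rw [Perm.mul_apply, hcomm, chi_congr (hγ _), chi_congr (hγ _), (hh γ u hγo).2 hn,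
          (hh ρ a ho).1 hρ, map_mul, map_mul, map_sub, conj_chi, conj_chi, map_pow]
        ring
      · refine Set.Finite.subset hA fun x hx e => hx ?_
        simp only [chi_congr e, sub_self, zero_mul, map_zero]
    rw [hsum, map_mul, map_sub, map_pow, Complex.conj_conj, map_one] at this
    exact mul_left_cancel₀ ha' (by linear_combination this - u ^ k * conj S * hak)

lemma spin_pow (o : ℂ) (k : ℕ) : Spin o k fun x => (x - o) ^ k := by
  intro γ u ho
  refine ⟨fun h x => ?_, fun h x => ?_⟩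
  · have := h.2 x o
    rw [ho] at this
    simp only [this, mul_pow]
  · have := h.2 x o
    rw [ho] at this
    simp only [this, mul_pow, map_pow]

open Classical in
lemma spin_rad (o : ℂ) (r : ℝ) : Spin o 1 fun x => if ‖x - o‖ = r then x - o else 0 := by
  intro γ u ho
  refine ⟨fun h x => ?_, fun h x => ?_⟩
  · have e := h.2 x o
    have n := Iso.norm_sub ⟨u, Or.inl h⟩ x o
    rw [ho] at e n
    simp only [n]
    split_ifs <;> simp [e]
  · have e := h.2 x o
    have n := Iso.norm_sub ⟨u, Or.inr h⟩ x o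
    rw [ho] at e n
    simp only [n]
    split_ifs <;> simp [e]

lemma six_circle {S : Finset ℂ} (h6 : 6 ≤ S.card) (h0 : ∀ x ∈ S, x ≠ 0)
    (h : ∀ x ∈ S, ∀ y ∈ S, ∀ z ∈ S, x ≠ y → x ≠ z → y ≠ z →
      x * y = z ^ 2 ∨ x * z = y ^ 2 ∨ y * z = x ^ 2) : False := by
  classical
  obtain ⟨p, hp, x, hx, hpx⟩ := one_lt_card.1 (show 1 < S.card by omega)
  set Y := (S.erase p).erase x with hY
  have hYc : 4 ≤ Y.card := by
    rw [hY, card_erase_of_mem (mem_erase.2 ⟨hpx.symm, hx⟩), card_erase_of_mem hp]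
    omega
  have hm : ∀ y ∈ Y, y ∈ S ∧ p ≠ y ∧ x ≠ y := fun y hy => by
    simp only [hY, mem_erase] at hy
    exact ⟨hy.2.2, hy.2.1.symm, hy.1.symm⟩
  have hp0 := h0 p hp
  have hx0 := h0 x hx
  set Z := Y.filter fun y => p * x = y ^ 2 with hZ
  have hsub : Y ⊆ Z ∪ {x ^ 2 / p, p ^ 2 / x} := by
    intro y hy
    obtain ⟨h1, h2, h3⟩ := hm y hy
    simp only [mem_union, hZ, mem_filter, mem_insert, mem_singleton]
    rcases h p hp x hx y h1 hpx h2 h3 with e | e | e
    · exact Or.inl ⟨hy, e⟩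
    · exact Or.inr (Or.inl (by rw [← e]; field_simp))
    · exact Or.inr (Or.inr (by rw [← e]; field_simp))
  have h2 : 1 < Z.card := by
    have := (card_le_card hsub).trans (card_union_le _ _)
    have := card_le_two (a := x ^ 2 / p) (b := p ^ 2 / x)
    omega
  obtain ⟨y, hy, y', hy', hyy⟩ := one_lt_card.1 h2
  rw [hZ, mem_filter] at hy hy'
  have neg : ∀ t, p * x = t ^ 2 → t ≠ y → t = -y := by
    intro t ht hne
    have : (t - y) * (t + y) = 0 := by linear_combination hy.2 - ht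
    exact eq_neg_of_add_eq_zero_left ((mul_eq_zero.1 this).resolve_left (sub_ne_zero.2 hne))
  have e' := neg y' hy'.2 hyy.symm
  obtain ⟨k1, k2, -⟩ := hm y hy.1
  obtain ⟨k3, k4, -⟩ := hm y' hy'.1
  have hy0 := h0 y k1
  have hxp : x = -p := by
    rcases h p hp y k1 y' k3 k2 k4 hyy with e | e | e
    · exact absurd (mul_right_cancel₀ hy0 (by rw [e'] at e; linear_combination e)) k2
    · exact absurd (mul_right_cancel₀ hy0 (by rw [e'] at e ⊢; linear_combination -e)) k4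
    · exact mul_left_cancel₀ hp0 (by rw [e'] at e; linear_combination hy.2 - e)
  have hsub2 : Y ⊆ {y, -y} := by
    intro t ht
    obtain ⟨h1, h2, h3⟩ := hm t ht
    rw [mem_insert, mem_singleton]
    rcases h p hp x hx t h1 hpx h2 h3 with e | e | e
    · by_cases ht : t = y
      · exact Or.inl ht
      · exact Or.inr (neg t e ht)
    · exact absurd (mul_left_cancel₀ hp0 (by rw [hxp] at e; linear_combination -e)) h2
    · exact absurd (mul_left_cancel₀ hp0 (by rw [hxp] at e ⊢; linear_combination e)) h3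
  have := (card_le_card hsub2).trans card_le_two
  omega

/-- All symmetries fix one point. -/
theorem centre_case {C : Set ℂ} {W : Finset ℂ} (h7 : W.card = 7) (hN : NC W)
    (hd : ∀ x ∈ W, x ∉ C) (hB : Bad C W) (hT : ∀ l, Alm C (tr l) → l = 0) : False := by
  classical
  have htr : ∀ g, Pos g 1 → Alm C g → g = 1 := by
    intro g hg hg'
    have e : g = tr (g 0) := Equiv.ext hg.tr_form
    have := hT (g 0) (e ▸ hg')
    exact hg.eq_one rfl this
  obtain ⟨ρ₀, a₀, hρ₀, hρ₀1, hρ₀A⟩ : ∃ ρ a, Pos ρ a ∧ ρ ≠ 1 ∧ Alm C ρ := by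
    by_contra hcon
    push Not at hcon
    obtain ⟨γ, ⟨u, h1 | h1⟩, h2, h3⟩ := hB ∅ (empty_subset _)
    · exact hcon γ u h1 h2 h3.alm
    have hfix : ∀ w ∈ W, γ w = w := by
      intro w hw
      obtain ⟨δ, ⟨v, k1 | k1⟩, k2, k3⟩ := hB {w} (singleton_subset_iff.2 hw)
      · exact (hcon δ v k1 k2 k3.alm).elim
      have e : γ⁻¹ * δ = 1 := by
        by_contra e
        exact hcon _ _ (h1.inv.mul k1) e (h3.alm.inv.mul k3.alm)
      rw [inv_mul_eq_one] at e
      have m1 := h3 w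
      have m2 := (k3 w).2 (by simp)
      rw [← e] at m2
      have := hd w hw
      simp only [coe_empty, Set.union_empty, coe_singleton, Set.mem_union,
        Set.mem_singleton_iff] at m1 m2
      tauto
    obtain ⟨p, hp, q, hq, r, hr, hc⟩ := hN
    exact h2 (Iso.eq_one_of_three ⟨u, Or.inr h1⟩ hc (hfix p hp) (hfix q hq) (hfix r hr))
  have ha₀ : a₀ ≠ 1 := fun e => hρ₀1 (htr ρ₀ (e ▸ hρ₀) hρ₀A)
  obtain ⟨o, ho⟩ : ∃ o, ρ₀ o = o := by
    have h1 : 1 - a₀ ≠ 0 := sub_ne_zero.2 ha₀.symm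
    refine ⟨ρ₀ 0 / (1 - a₀), ?_⟩
    have := hρ₀.2 (ρ₀ 0 / (1 - a₀)) 0
    rw [sub_eq_iff_eq_add.1 this]
    field_simp
    ring
  have hfix : ∀ g, Iso g → Alm C g → g o = o := by
    intro g hg hgA
    obtain ⟨σ, hσ, hσo, hσA⟩ : ∃ σ : Perm ℂ, Pos σ a₀ ∧ σ (g o) = g o ∧ Alm C σ := by
      obtain ⟨b, hg | hg⟩ := hg
      · refine ⟨g * ρ₀ * g⁻¹, ?_, by simp [ho], (hgA.mul hρ₀A).mul hgA.inv⟩
        have := (hg.mul hρ₀).mul hg.inv
        rwa [show b * a₀ * conj b = a₀ by linear_combination a₀ * hg.1] at this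
      · have ho' : ρ₀⁻¹ o = o := by rw [Perm.inv_eq_iff_eq, ho]
        refine ⟨g * ρ₀⁻¹ * g⁻¹, ?_, by simp only [Perm.mul_apply, inv_app, ho'],
          (hgA.mul hρ₀A.inv).mul hgA.inv⟩
        have := (hg.mul_pos hρ₀.inv).mul hg.inv
        rwa [Complex.conj_conj, show b * a₀ * conj b = a₀ by linear_combination a₀ * hg.1] at this
    have hτ : Pos (ρ₀⁻¹ * σ) 1 := by
      have := hρ₀.inv.mul hσ
      rwa [mul_comm, hρ₀.1] at this
    have e := inv_mul_eq_one.1 (htr _ hτ (hρ₀A.inv.mul hσA))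
    by_contra hne
    exact hρ₀1 (hρ₀.eq_one_of_two hne (by rw [e, hσo]) ho)
  -- spin one moments
  have spin1 : ∀ h, Spin o 1 h → ∃ s : ℂ, ∀ T ⊆ W, ∀ γ u, γ ≠ 1 → Pres γ (C ∪ ↑T) →
      (Pos γ u → s + ∑ x ∈ T, h x = 0) ∧
      (Neg γ u → s + ∑ x ∈ T, h x = u * conj (s + ∑ x ∈ T, h x)) := by
    intro h hh
    obtain ⟨s, hs⟩ := moment hρ₀ ho (k := 1) (by simpa using ha₀) hρ₀A hh
    refine ⟨s, fun T hT γ u h1 hγ => ⟨fun hp => ?_, fun hn => ?_⟩⟩
    · have hγo := hfix γ ⟨u, Or.inl hp⟩ hγ.alm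
      have := (hs T (fun x hx => hd x (hT hx)) γ u hγo hγ).1 hp
      have hu : 1 - u ≠ 0 := fun e => h1 (hp.eq_one (sub_eq_zero.1 e).symm hγo)
      exact mul_left_cancel₀ hu (by linear_combination this)
    · simpa using (hs T (fun x hx => hd x (hT hx)) γ u (hfix γ ⟨u, Or.inr hn⟩ hγ.alm) hγ).2 hn
  obtain ⟨s, hs⟩ := spin1 _ (by simpa using spin_pow o 1)
  obtain ⟨v₀, hv₀, hv₀o⟩ := exists_mem_ne (show 1 < W.card by omega) o
  by_cases hbig : ∃ ρ a, Pos ρ a ∧ Alm C ρ ∧ a ^ 2 ≠ 1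
  · obtain ⟨ρ, a, hρ, hρA, ha⟩ := hbig
    have hcol : ∀ v ∈ W, ∀ w ∈ W, ‖v - o‖ ≠ ‖w - o‖ → Col o v w := by
      intro v hv w hw hne
      obtain ⟨s₁, hs₁⟩ := spin1 _ (spin_rad o ‖v - o‖)
      obtain ⟨s₂, hs₂⟩ := spin1 _ (spin_rad o ‖w - o‖)
      have hvw : v ≠ w := fun e => hne (by rw [e])
      have key : ∀ T ⊆ W, ∀ A B : ℂ,
          s₁ + ∑ x ∈ T, (if ‖x - o‖ = ‖v - o‖ then x - o else 0) = A →
          s₂ + ∑ x ∈ T, (if ‖x - o‖ = ‖w - o‖ then x - o else 0) = B →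
          A * conj B = conj A * B := by
        intro T hT A B eA eB
        obtain ⟨γ, ⟨u, h1 | h1⟩, h2, h3⟩ := hB T hT
        · rw [← eA, (hs₁ T hT γ u h2 h3).1 h1]; simp
        · have e1 := (hs₁ T hT γ u h2 h3).2 h1
          have e2 := (hs₂ T hT γ u h2 h3).2 h1
          rw [eA] at e1
          rw [eB] at e2
          linear_combination conj B * e1 - conj A * e2
      have k0 := key ∅ (empty_subset _) s₁ s₂ (by simp) (by simp)
      have k1 := key {v} (by simp [hv]) (s₁ + (v - o)) s₂ (by simp) (by simp [hne])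
      have k2 := key {w} (by simp [hw]) s₁ (s₂ + (w - o)) (by simp [hne.symm]) (by simp)
      have k3 := key {v, w} (by simp [insert_subset_iff, hv, hw]) (s₁ + (v - o)) (s₂ + (w - o))
        (by rw [sum_pair hvw]; simp [hne.symm]) (by rw [sum_pair hvw]; simp [hne])
      unfold Col
      simp only [map_add] at k1 k2 k3
      linear_combination k3 - k1 - k2 + k0
    have hrad : ∀ v ∈ W, v ≠ o → ∀ w ∈ W, w ≠ o → ‖v - o‖ = ‖w - o‖ := by
      intro v hv hvo w hw hwo
      by_contra hne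
      obtain ⟨z, hz, hz'⟩ := hN.off hvo.symm
      have e1 : ‖v - o‖ = ‖z - o‖ := by
        by_contra e
        exact hz' (hcol v hv z hz e)
      have e2 : ‖w - o‖ = ‖z - o‖ := by
        by_contra e
        exact hz' (col_trans (col_left o v) (hcol v hv w hw hne) hwo.symm (hcol w hw z hz e))
      exact hne (e1.trans e2.symm)
    obtain ⟨m, hm⟩ := moment hρ (hfix ρ ⟨a, Or.inl hρ⟩ hρA) ha hρA (spin_pow o 2)
    have key : ∀ T ⊆ W, ∀ A B : ℂ, s + ∑ x ∈ T, (x - o) = A → m + ∑ x ∈ T, (x - o) ^ 2 = B →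
        A ^ 2 * conj B = conj A ^ 2 * B := by
      intro T hT A B eA eB
      obtain ⟨γ, ⟨u, h1 | h1⟩, h2, h3⟩ := hB T hT
      · rw [← eA, (hs T hT γ u h2 h3).1 h1]; simp
      · have e1 := (hs T hT γ u h2 h3).2 h1
        have e2 := (hm T (fun x hx => hd x (hT hx)) γ u (hfix γ ⟨u, Or.inr h1⟩ h3.alm) h3).2 h1
        rw [eA] at e1
        rw [eB] at e2
        linear_combination conj B * (A + u * conj A) * e1 - conj A ^ 2 * e2
    refine six_circle (S := (W.erase o).image fun x => x - o) ?_ ?_ ?_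
    · rw [card_image_of_injective _ sub_left_injective]
      have := pred_card_le_card_erase (s := W) (a := o)
      omega
    · intro x hx
      obtain ⟨y, hy, rfl⟩ := mem_image.1 hx
      exact sub_ne_zero.2 (mem_erase.1 hy).1
    intro x hx y hy z hz hxy hxz hyz
    obtain ⟨p, hp, ep⟩ := mem_image.1 hx
    obtain ⟨q, hq, eq⟩ := mem_image.1 hy
    obtain ⟨r, hr, er⟩ := mem_image.1 hz
    rw [mem_erase] at hp hq hr
    have hpq : p ≠ q := fun e => hxy (by rw [← ep, ← eq, e])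
    have hpr : p ≠ r := fun e => hxz (by rw [← ep, ← er, e])
    have hqr : q ≠ r := fun e => hyz (by rw [← eq, ← er, e])
    have one : ∀ t ∈ W, ∀ X, t - o = X →
        (s + X) ^ 2 * conj (m + X ^ 2) = conj (s + X) ^ 2 * (m + X ^ 2) :=
      fun t ht X e => key {t} (by simp [ht]) _ _ (by simp [e]) (by simp [e])
    have two : ∀ t ∈ W, ∀ t' ∈ W, t ≠ t' → ∀ X Y, t - o = X → t' - o = Y →
        (s + (X + Y)) ^ 2 * conj (m + (X ^ 2 + Y ^ 2)) =
          conj (s + (X + Y)) ^ 2 * (m + (X ^ 2 + Y ^ 2)) :=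
      fun t ht t' ht' hne X Y e e' => key {t, t'} (by simp [insert_subset_iff, ht, ht']) _ _
        (by rw [sum_pair hne, e, e']) (by rw [sum_pair hne, e, e'])
    have k0 := key ∅ (empty_subset _) s m (by simp) (by simp)
    have k1 := one p hp.2 x ep
    have k2 := one q hq.2 y eq
    have k3 := one r hr.2 z er
    have k4 := two p hp.2 q hq.2 hpq x y ep eq
    have k5 := two p hp.2 r hr.2 hpr x z ep er
    have k6 := two q hq.2 r hr.2 hqr y z eq er
    have k7 := key {p, q, r} (by simp [insert_subset_iff, hp.2, hq.2, hr.2]) (s + (x + (y + z)))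
      (m + (x ^ 2 + (y ^ 2 + z ^ 2)))
      (by rw [sum_insert (by simp [hpq, hpr]), sum_pair hqr, ep, eq, er])
      (by rw [sum_insert (by simp [hpq, hpr]), sum_pair hqr, ep, eq, er])
    simp only [map_add, map_pow] at k1 k2 k3 k4 k5 k6 k7
    have main : x * y * conj z ^ 2 + x * z * conj y ^ 2 + y * z * conj x ^ 2 =
        conj x * conj y * z ^ 2 + conj x * conj z * y ^ 2 + conj y * conj z * x ^ 2 := by
      linear_combination (k7 - k4 - k5 - k6 + k1 + k2 + k3 - k0) / 2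
    have x0 : x ≠ 0 := ep ▸ sub_ne_zero.2 hp.1
    have y0 : y ≠ 0 := eq ▸ sub_ne_zero.2 hq.1
    have z0 : z ≠ 0 := er ▸ sub_ne_zero.2 hr.1
    obtain ⟨R, hR⟩ : ∃ R : ℂ, R = (‖x‖ : ℂ) ^ 2 := ⟨_, rfl⟩
    have R0 : R ≠ 0 := by simp [hR, x0]
    have nx : conj x = R / x := by rw [eq_div_iff x0, mul_comm, Complex.mul_conj', hR]
    have ny : conj y = R / y := by
      rw [eq_div_iff y0, mul_comm, Complex.mul_conj', hR, ← ep, ← eq, hrad p hp.2 hp.1 q hq.2 hq.1]
    have nz : conj z = R / z := by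
      rw [eq_div_iff z0, mul_comm, Complex.mul_conj', hR, ← ep, ← er, hrad p hp.2 hp.1 r hr.2 hr.1]
    rw [nx, ny, nz] at main
    field_simp at main
    have : (x * y - z ^ 2) * ((x * z - y ^ 2) * (y * z - x ^ 2)) = 0 := by
      linear_combination main
    simpa only [mul_eq_zero, sub_eq_zero] using this
  · push Not at hbig
    obtain ⟨u₀, hu₀, hkey⟩ : ∃ u₀ : ℂ, u₀ ≠ 0 ∧ ∀ T ⊆ W, ∀ A : ℂ, s + ∑ x ∈ T, (x - o) = A →
        A ^ 2 * conj u₀ = conj A ^ 2 * u₀ := by
      by_cases hn : ∃ g u, Neg g u ∧ Alm C g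
      · obtain ⟨g, u₀, hg, hgA⟩ := hn
        refine ⟨u₀, unit_ne hg.1, fun T hT A eA => ?_⟩
        obtain ⟨γ, ⟨u, h1 | h1⟩, h2, h3⟩ := hB T hT
        · rw [← eA, (hs T hT γ u h2 h3).1 h1]; simp
        · have e1 := (hs T hT γ u h2 h3).2 h1
          have e2 := hbig _ _ (h1.mul hg) (h3.alm.mul hgA)
          rw [eA] at e1
          linear_combination conj u₀ * (A + u * conj A) * e1 + conj A ^ 2 * u₀ * e2 -
            conj A ^ 2 * u ^ 2 * conj u₀ * hg.1
      · push Not at hn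
        refine ⟨1, one_ne_zero, fun T hT A eA => ?_⟩
        obtain ⟨γ, ⟨u, h1 | h1⟩, h2, h3⟩ := hB T hT
        · rw [← eA, (hs T hT γ u h2 h3).1 h1]; simp
        · exact (hn γ u h1 h3.alm).elim
    have pair : ∀ v ∈ W, ∀ w ∈ W, v ≠ w →
        (v - o) * (w - o) * conj u₀ = conj (v - o) * conj (w - o) * u₀ := by
      intro v hv w hw hvw
      have k0 := hkey ∅ (empty_subset _) s (by simp)
      have k1 := hkey {v} (by simp [hv]) (s + (v - o)) (by simp)
      have k2 := hkey {w} (by simp [hw]) (s + (w - o)) (by simp)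
      have k3 := hkey {v, w} (by simp [insert_subset_iff, hv, hw]) (s + ((v - o) + (w - o)))
        (by rw [sum_pair hvw])
      simp only [map_add] at k1 k2 k3
      linear_combination (k3 - k1 - k2 + k0) / 2
    obtain ⟨z, hz, hz'⟩ := hN.off hv₀o.symm
    obtain ⟨t, ht, ht'⟩ := exists_mem_notMem_of_card_lt_card
      (show ({o, v₀, z} : Finset ℂ).card < W.card from lt_of_le_of_lt card_le_three (by omega))
    simp only [mem_insert, mem_singleton, not_or] at ht'
    have e1 := pair t ht v₀ hv₀ ht'.2.1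
    have e2 := pair t ht z hz ht'.2.2
    have t0 : conj (t - o) * u₀ ≠ 0 :=
      mul_ne_zero (by rw [Ne, map_eq_zero]; exact sub_ne_zero.2 ht'.1) hu₀
    apply hz'
    unfold Col
    exact mul_left_cancel₀ t0 (by linear_combination (z - o) * e1 - (v₀ - o) * e2)

theorem not_bad {C : Set ℂ} {W : Finset ℂ} (h7 : W.card = 7) (hN : NC W)
    (hd : ∀ x ∈ W, x ∉ C) : ¬ Bad C W := by
  intro hB
  by_cases h : ∃ l, l ≠ 0 ∧ Alm C (tr l)
  · obtain ⟨l, hl, h⟩ := h
    exact not_allSym h7 hN (allSym_of_tr (by omega) hd hB hl h)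
  · push Not at h
    exact centre_case h7 hN hd hB fun l hl => by_contra fun e => h l e hl

end Pool.Agent.P.MP_84fce2_co.Sv
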