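import Pool.Agent.P.MP_84fce2_co.s.Fin

namespace Pool.Agent.P.MP_84fce2_co.Sv

open Finset Equiv ComplexConjugate Filter

/-- `γ` preserves `C` up to finitely many points. -/
def Alm (C : Set ℂ) (γ : Perm ℂ) : Prop := {x | ¬ (γ x ∈ C ↔ x ∈ C)}.Finite

lemma Alm.mul {C : Set ℂ} {γ δ : Perm ℂ} (h : Alm C γ) (h' : Alm C δ) : Alm C (γ * δ) := by
  refine ((h.preimage δ.injective.injOn).union h').subset fun x hx => ?_
  simp only [Set.mem_union, Set.mem_preimage, Set.mem_ofPred_eq, Perm.mul_apply] at hx ⊢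
  tauto

lemma Alm.inv {C : Set ℂ} {γ : Perm ℂ} (h : Alm C γ) : Alm C γ⁻¹ := by
  refine (h.preimage γ⁻¹.injective.injOn).subset fun x hx => ?_
  simp only [Set.mem_preimage, Set.mem_ofPred_eq, app_inv] at hx ⊢
  tauto

lemma Alm.close {C D : Set ℂ} {γ : Perm ℂ} (h : Alm C γ) (hF : {x | ¬ (x ∈ C ↔ x ∈ D)}.Finite) :
    Alm D γ := by
  refine (((hF.preimage γ.injective.injOn).union hF).union h).subset fun x hx => ?_
  simp only [Set.mem_union, Set.mem_preimage, Set.mem_ofPred_eq] at hx ⊢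
  tauto

lemma close_union (C : Set ℂ) (T : Finset ℂ) : {x | ¬ (x ∈ C ∪ ↑T ↔ x ∈ C)}.Finite := by
  refine T.finite_toSet.subset fun x hx => ?_
  simp only [Set.mem_union, Set.mem_ofPred_eq] at hx ⊢
  tauto

lemma Pres.alm {C : Set ℂ} {T : Finset ℂ} {γ : Perm ℂ} (h : Pres γ (C ∪ ↑T)) : Alm C γ := by
  have : Alm (C ∪ ↑T) γ := by
    have e : {x | ¬ (γ x ∈ C ∪ ↑T ↔ x ∈ C ∪ ↑T)} = ∅ :=
      Set.eq_empty_of_forall_notMem fun x hx => hx (h x)
    unfold Alm
    rw [e]
    exact Set.finite_empty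
  exact this.close (close_union C T)

lemma Alm.union {C : Set ℂ} {γ : Perm ℂ} (h : Alm C γ) (T : Finset ℂ) : Alm (C ∪ ↑T) γ :=
  h.close ((close_union C T).subset fun _ hx h => hx h.symm)

lemma inj_ray (x : ℂ) {v : ℂ} (hv : v ≠ 0) : Function.Injective fun n : ℕ => x + n * v := by
  intro m n e
  have : ((m : ℂ) - n) * v = 0 := by linear_combination e
  exact_mod_cast sub_eq_zero.1 ((mul_eq_zero.1 this).resolve_right hv)

lemma empty_of_shift {Z : Set ℂ} (hZ : Z.Finite) {v : ℂ} (hv : v ≠ 0)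
    (h : ∀ x ∈ Z, x + v ∈ Z) (x : ℂ) : x ∉ Z := by
  intro hx
  refine Set.infinite_of_injective_forall_mem (inj_ray x hv) (fun n => ?_) hZ
  induction n with
  | zero => simpa using hx
  | succ n ih =>
    have := h _ ih
    simpa [add_mul, add_assoc] using this

lemma run {C : Set ℂ} {v x : ℂ} (h : ∀ k : ℕ, (x + k * v + v ∈ C ↔ x + k * v ∈ C)) (n : ℕ) :
    x + n * v ∈ C ↔ x ∈ C := by
  induction n with
  | zero => simp
  | succ n ih =>
    rw [← ih, ← h n]
    simp [add_mul, add_assoc]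

/-- Two independent almost periods: a nearby set has the first one as a period. -/
lemma exists_periodic {C : Set ℂ} {l l' : ℂ} (h : Alm C (tr l)) (h' : Alm C (tr l'))
    (hind : (l' * conj l).im ≠ 0) :
    ∃ D : Set ℂ, {x | ¬ (x ∈ C ↔ x ∈ D)}.Finite ∧ ∀ x, x + l ∈ D ↔ x ∈ D := by
  have hl : l ≠ 0 := by
    rintro rfl
    simp at hind
  have hind' : (l * conj l').im ≠ 0 := by
    intro e
    apply hind
    simp only [Complex.mul_im, Complex.conj_re, Complex.conj_im] at e ⊢
    linarith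
  let α : ℂ → ℝ := fun x => (x * conj l').im / (l * conj l').im
  let β : ℂ → ℝ := fun x => (x * conj l).im / (l' * conj l).im
  have z1 : ∀ v : ℂ, (v * conj v).im = 0 := fun v => by rw [Complex.mul_conj]; simp
  have lin : ∀ (x v w : ℂ) (k : ℕ), ((x + k * v) * conj w).im =
      (x * conj w).im + k * (v * conj w).im := by
    intro x v w k
    rw [add_mul, mul_assoc, Complex.add_im]
    simp
  have a1 : ∀ x (k : ℕ), α (x + k * l) = α x + k := fun x k => by
    simp only [α, lin]
    rw [add_div, mul_div_assoc, div_self hind', mul_one]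
  have a2 : ∀ x (k : ℕ), α (x + k * l') = α x := fun x k => by
    simp only [α, lin, z1, mul_zero, add_zero]
  have b1 : ∀ x (k : ℕ), β (x + k * l) = β x := fun x k => by
    simp only [β, lin, z1, mul_zero, add_zero]
  have b2 : ∀ x (k : ℕ), β (x + k * l') = β x + k := fun x k => by
    simp only [β, lin]
    rw [add_div, mul_div_assoc, div_self hind, mul_one]
  set E₁ := {x | ¬ (tr l x ∈ C ↔ x ∈ C)} with hE₁
  set E₂ := {x | ¬ (tr l' x ∈ C ↔ x ∈ C)} with hE₂
  obtain ⟨M₁, hM₁⟩ := (Set.Finite.image β h).bddAbove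
  obtain ⟨M₂, hM₂⟩ := (Set.Finite.image (fun x => |α x|) (Set.Finite.union h h')).bddAbove
  have c1 : ∀ x, M₁ < β x → ∀ n : ℕ, x + n * l ∈ C ↔ x ∈ C := by
    intro x hx
    refine run fun k => ?_
    by_contra hc
    have := hM₁ (Set.mem_image_of_mem β (show x + k * l ∈ E₁ from hc))
    rw [b1] at this
    linarith
  have c2 : ∀ x, M₂ < |α x| → ∀ n : ℕ, x + n * l' ∈ C ↔ x ∈ C := by
    intro x hx
    refine run fun k => ?_
    by_contra hc
    have := hM₂ (Set.mem_image_of_mem (fun x => |α x|)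
      (Set.mem_union_right E₁ (show x + k * l' ∈ E₂ from hc)))
    simp only [a2] at this
    linarith
  have const : ∀ x, (∀ᶠ n : ℕ in atTop, (x + n * l ∈ C ↔ x ∈ C)) →
      (x ∈ C ↔ ∀ᶠ n : ℕ in atTop, x + n * l ∈ C) := by
    intro x hx
    refine ⟨fun h => hx.mono fun n hn => hn.2 h, fun h => ?_⟩
    obtain ⟨n, h1, h2⟩ := (hx.and h).exists
    exact h1.1 h2
  refine ⟨{x | ∀ᶠ n : ℕ in atTop, x + n * l ∈ C}, ?_, fun x => ?_⟩
  · obtain ⟨K, hK⟩ := exists_nat_ge (2 * M₂)
    refine (Set.Finite.biUnion (Set.finite_Iic K) fun k _ =>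
      Set.Finite.preimage (add_left_injective ((k : ℂ) * l)).injOn h).subset fun x hx => ?_
    simp only [Set.mem_ofPred_eq] at hx
    have hα : |α x| ≤ M₂ := by
      by_contra hc
      apply hx
      apply const
      obtain ⟨j, hj⟩ := exists_nat_gt (M₁ - β x)
      obtain ⟨N, hN⟩ := exists_nat_gt (M₂ - α x)
      filter_upwards [eventually_ge_atTop N] with n hn
      have hn' : (N : ℝ) ≤ n := by exact_mod_cast hn
      have e1 := c2 x (not_le.1 hc) j
      have e2 := c1 (x + j * l') (by rw [b2]; linarith) n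
      have e3 := c2 (x + n * l) (by rw [a1]; exact lt_of_lt_of_le (by linarith) (le_abs_self _)) j
      rw [← e3, ← e1, ← e2, add_right_comm]
    have : ∃ k : ℕ, x + k * l ∈ E₁ := by
      by_contra hc
      push Not at hc
      exact hx (const x (Eventually.of_forall (run fun k => not_not.1 (hc k))))
    obtain ⟨k, hk⟩ := this
    have h2 := hM₂ (Set.mem_image_of_mem (fun x => |α x|) (Set.mem_union_left E₂ hk))
    simp only [a1] at h2
    have h3 : (k : ℝ) ≤ K := by
      have := le_abs_self (α x + k)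
      have := neg_abs_le (α x)
      linarith
    exact Set.mem_biUnion (show k ∈ Set.Iic K by exact_mod_cast h3) hk
  · simp only [Set.mem_ofPred_eq, eventually_atTop]
    constructor
    · rintro ⟨N, hN⟩
      refine ⟨N + 1, fun n hn => ?_⟩
      obtain ⟨m, rfl⟩ : ∃ m, n = m + 1 := ⟨n - 1, by omega⟩
      have := hN m (by omega)
      simpa [add_mul, add_assoc, add_comm, add_left_comm] using this
    · rintro ⟨N, hN⟩
      refine ⟨N, fun n hn => ?_⟩
      have := hN (n + 1) (by omega)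
      simpa [add_mul, add_assoc, add_comm, add_left_comm] using this

lemma conj_tr {γ : Perm ℂ} (h : Iso γ) (l : ℂ) : ∃ m, ∀ x, γ (x + m) = γ x + l := by
  obtain ⟨a, h | h⟩ := h
  · exact ⟨conj a * l, fun x => by linear_combination h.2 (x + conj a * l) x + l * h.1⟩
  · refine ⟨a * conj l, fun x => ?_⟩
    have := h.2 (x + a * conj l) x
    rw [add_sub_cancel_left, map_mul, Complex.conj_conj] at this
    linear_combination this + l * h.1

lemma alm_conj {C : Set ℂ} {γ : Perm ℂ} (hγ : Alm C γ) {l m : ℂ} (h : Alm C (tr l))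
    (e : ∀ x, γ (x + m) = γ x + l) : Alm C (tr m) := by
  have : tr m = γ⁻¹ * tr l * γ := by
    ext x
    simp only [Perm.mul_apply, tr_apply, ← e, inv_app]
  rw [this]
  exact (hγ.inv.mul h).mul hγ

theorem allSym_two {C : Set ℂ} {W : Finset ℂ} (hW : 2 ≤ W.card) (hd : ∀ x ∈ W, x ∉ C)
    (hB : Bad C W) {l l' : ℂ} (h : Alm C (tr l)) (h' : Alm C (tr l'))
    (hind : (l' * conj l).im ≠ 0) : AllSym W := by
  have hl : l ≠ 0 := by
    rintro rfl
    simp at hind
  obtain ⟨D, hF, hD⟩ := exists_periodic h h' hind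
  have hpres : ∀ γ, Iso γ → Alm C γ → Pres γ D := by
    intro γ hγ hγ'
    obtain ⟨m, hm⟩ := conj_tr hγ l
    have hm0 : m ≠ 0 := by
      rintro rfl
      have := hm 0
      simp at this
      exact hl this
    have h1 : ∀ x, x + m ∈ D ↔ x ∈ D := by
      intro x
      refine not_not.1 (empty_of_shift ((alm_conj hγ' h hm).close hF) hl (fun y hy => ?_) x)
      simp only [Set.mem_ofPred_eq, tr_apply] at hy ⊢
      rwa [add_right_comm, hD, hD]
    intro x
    refine not_not.1 (empty_of_shift (hγ'.close hF) hm0 (fun y hy => ?_) x)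
    simp only [Set.mem_ofPred_eq] at hy ⊢
    rwa [hm, hD, h1]
  have hfin : ∀ T : Finset ℂ, {x | ¬ (x ∈ C ∪ ↑T ↔ x ∈ D)}.Finite := by
    intro T
    refine (hF.union (close_union C T)).subset fun x hx => ?_
    simp only [Set.mem_union, Set.mem_ofPred_eq] at hx ⊢
    tauto
  refine allSym_of_finite W hW (fun T => (hfin T).toFinset) (fun T hT x => ?_) fun T hT => ?_
  · simp only [Set.Finite.mem_toFinset, Set.mem_ofPred_eq, Set.mem_union, mem_coe, coe_empty,
      Set.mem_empty_iff_false, or_false]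
    have := fun hx => hd x (hT hx)
    tauto
  · obtain ⟨γ, h1, h2, h3⟩ := hB T hT
    refine ⟨γ, h1, h2, fun x => ?_⟩
    simp only [Set.Finite.coe_toFinset, Set.mem_ofPred_eq]
    rw [h3 x, hpres γ h1 h3.alm x]

/-- Isometries whose linear part fixes `μ` up to sign. -/
def dirG (μ : ℂ) : Subgroup (Perm ℂ) where
  carrier := {g | Iso g ∧ ((∀ z, g (z + μ) = g z + μ) ∨ ∀ z, g (z + μ) = g z - μ)}
  mul_mem' := by
    rintro g k ⟨h1, h2⟩ ⟨k1, k2⟩
    refine ⟨h1.mul k1, ?_⟩
    have back : ∀ s : ℂ, (∀ z, g (z + μ) = g z + s) → ∀ z, g (z - μ) = g z - s := by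
      intro s h z
      have := h (z - μ)
      rw [sub_add_cancel] at this
      rw [this]; ring
    rcases h2 with h2 | h2 <;> rcases k2 with k2 | k2
    · exact Or.inl fun z => by simp only [Perm.mul_apply, k2, h2]
    · exact Or.inr fun z => by simp only [Perm.mul_apply, k2, back μ h2]
    · exact Or.inr fun z => by simp only [Perm.mul_apply, k2, h2]
    · exact Or.inl fun z => by
        simp only [Perm.mul_apply, k2, back (-μ) (fun z => by rw [h2]; ring), sub_neg_eq_add]
  one_mem' := ⟨iso_one, Or.inl fun _ => rfl⟩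
  inv_mem' := by
    rintro g ⟨h1, h2 | h2⟩
    · exact ⟨h1.inv, Or.inl fun z => by rw [Perm.inv_eq_iff_eq, h2, app_inv]⟩
    · refine ⟨h1.inv, Or.inr fun z => ?_⟩
      rw [Perm.inv_eq_iff_eq]
      have := h2 (g⁻¹ z - μ)
      rw [sub_add_cancel, app_inv] at this
      linear_combination this

lemma dir_invol {μ : ℂ} (hμ : μ ≠ 0) {g : Perm ℂ} (hg : g ∈ dirG μ) (h1 : g ≠ 1) {B : Finset ℂ}
    (hB : Pres g B) : ∃ k ∈ dirG μ, k ≠ 1 ∧ k * k = 1 ∧ ∀ x, k x ∈ B ↔ x ∈ B := by
  rcases B.eq_empty_or_nonempty with e | hne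
  · have hp : Pos (Equiv.neg ℂ) (-1) := ⟨by simp, fun z w => by simp; ring⟩
    refine ⟨Equiv.neg ℂ, ⟨⟨_, Or.inl hp⟩, Or.inr fun z => by simp; ring⟩, fun h => ?_,
      hp.invol rfl (p := 0) (by simp), by simp [e]⟩
    have := congrArg (fun f : Perm ℂ => f 1) h
    norm_num at this
  have ho := hg.1.fix_cen hB hne
  refine ⟨g, hg, h1, ?_, fun x => by simpa using hB x⟩
  obtain ⟨⟨a, h | h⟩, h2⟩ := hg
  · have e := h.2 (0 + μ) 0
    rcases h2 with h2 | h2
    · refine absurd (h.eq_one ?_ ho) h1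
      rw [h2] at e
      exact mul_right_cancel₀ hμ (by linear_combination -e)
    · refine h.invol ?_ ho
      rw [h2] at e
      exact mul_right_cancel₀ hμ (by linear_combination -e)
  · exact h.invol ho

theorem allSym_dir {C : Set ℂ} {W : Finset ℂ} (hd : ∀ x ∈ W, x ∉ C) {μ : ℂ}
    (hB : ∀ T ⊆ W, ∃ γ ∈ dirG μ, γ ≠ 1 ∧ Pres γ (C ∪ ↑T)) (h : Alm C (tr μ))
    (hbig : ∀ x ∈ W, ∀ y ∈ W, 2 * ‖x - y‖ < ‖μ‖) : AllSym W := by
  classical
  intro P hP hP2
  obtain ⟨u, hu, v, hv, huv⟩ := one_lt_card.1 (show 1 < P.card by omega)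
  have hμ : μ ≠ 0 := by
    rintro rfl
    have := hbig u (hP hu) u (hP hu)
    simp at this
  have small : ∀ (k : ℤ) (a a' b b' : ℂ), a ∈ W → a' ∈ W → b ∈ W → b' ∈ W →
      ‖a + k * μ - a'‖ = ‖b - b'‖ → k = 0 := by
    intro k a a' b b' ha ha' hb hb' e
    by_contra hk
    have h1 : (1 : ℝ) ≤ ‖(k : ℂ)‖ := by
      rw [Complex.norm_intCast]
      exact_mod_cast Int.one_le_abs hk
    have h2 : ‖(k : ℂ) * μ‖ ≤ ‖a + k * μ - a'‖ + ‖a - a'‖ := by
      have := norm_sub_le (a + k * μ - a') (a - a')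
      rwa [show a + k * μ - a' - (a - a') = k * μ by ring] at this
    rw [norm_mul, e] at h2
    have := hbig a ha a' ha'
    have := hbig b hb b' hb'
    nlinarith [norm_nonneg μ]
  have nshift : ∀ a ∈ W, ∀ b ∈ W, a + μ ≠ b := by
    intro a ha b hb e
    have := small 1 a b a a ha hb ha ha (by simp [e])
    exact one_ne_zero this
  have hfin : ∀ T : Finset ℂ, {x | ¬ (x - μ ∈ C ∪ ↑T ↔ x ∈ C ∪ ↑T)}.Finite := by
    intro T
    refine (h.union T).inv.subset fun x hx => ?_
    have : (tr μ)⁻¹ x = x - μ := by rw [Perm.inv_eq_iff_eq]; simp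
    simpa only [Set.mem_ofPred_eq, this] using hx
  have hD : ∀ a ∈ P, ∀ b ∈ P, ∀ x, x ∈ ({a, a + μ} : Finset ℂ) → x ∈ ({b, b + μ} : Finset ℂ) →
      a = b := by
    intro a ha b hb x h1 h2
    simp only [mem_insert, mem_singleton] at h1 h2
    rcases h1 with h1 | h1 <;> rcases h2 with h2 | h2
    · exact h1.symm.trans h2
    · exact absurd (h2.symm.trans h1) (nshift b (hP hb) a (hP ha))
    · exact absurd (h1.symm.trans h2) (nshift a (hP ha) b (hP hb))
    · exact add_right_cancel (h1.symm.trans h2)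
  obtain ⟨g, hg, hg1, hgP⟩ := parity (dirG μ) P (fun a => {a, a + μ})
    (fun T => (hfin T).toFinset) (fun a => if a = u then a + μ else a) hD
    (fun a _ => by split_ifs <;> simp)
    (fun T hT x => by
      have e : (∃ a ∈ T, x ∈ ({a, a + μ} : Finset ℂ)) ↔ x ∈ T ∨ x - μ ∈ T := by
        simp only [mem_insert, mem_singleton]
        constructor
        · rintro ⟨a, ha, rfl | rfl⟩
          · exact Or.inl ha
          · exact Or.inr (by simpa using ha)
        · rintro (h | h)
          · exact ⟨x, h, Or.inl rfl⟩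
          · exact ⟨x - μ, h, Or.inr (by ring)⟩
      simp only [Set.Finite.mem_toFinset, Set.mem_ofPred_eq, Set.mem_union, mem_coe, coe_empty,
        Set.mem_empty_iff_false, or_false, e]
      have h1 := fun hx => hd x (hP (hT hx))
      have h2 := fun hx => hd (x - μ) (hP (hT hx))
      have h3 : x ∈ T → x - μ ∈ T → False := fun k1 k2 =>
        nshift _ (hP (hT k2)) x (hP (hT k1)) (by ring)
      tauto)
    (fun T hT => by
      obtain ⟨γ, hγ, hγ1, hγP⟩ := hB T (hT.trans hP)
      rcases hγ.2 with h2 | h2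
      · refine dir_invol hμ hγ hγ1 fun x => ?_
        simp only [Set.Finite.coe_toFinset, Set.mem_ofPred_eq]
        have : γ x - μ = γ (x - μ) := by
          have := h2 (x - μ)
          rw [sub_add_cancel] at this
          rw [this]; ring
        rw [this, hγP, hγP]
      · have htr : tr μ ∈ dirG μ := ⟨⟨1, Or.inl (tr_pos μ)⟩, Or.inl fun z => rfl⟩
        refine dir_invol hμ ((dirG μ).mul_mem htr hγ) (fun e => ?_) fun x => ?_
        · have e1 := congrArg (fun f : Perm ℂ => f (0 + μ)) e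
          have e2 := congrArg (fun f : Perm ℂ => f 0) e
          simp only [Perm.mul_apply, tr_apply, h2, Perm.coe_one, id_eq] at e1 e2
          have : (2 : ℂ) * μ = 0 := by linear_combination e2 - e1
          exact hμ (by simpa using this)
        · simp only [Set.Finite.coe_toFinset, Set.mem_ofPred_eq, Perm.mul_apply, tr_apply,
            add_sub_cancel_right]
          have : γ x + μ = γ (x - μ) := by
            have := h2 (x - μ)
            rw [sub_add_cancel] at this
            rw [this]; ring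
          rw [this, hγP, hγP]
          tauto)
  choose! b hb hgb using hgP
  have hsurj : ∀ y ∈ P, ∃ a ∈ P, b a = y := by
    intro y hy
    obtain ⟨a, ha, e⟩ := surj_on_of_inj_on_of_card_le (s := P) (t := P) (fun a _ => b a)
      (fun a ha => hb a ha) (fun a a' ha ha' e => hD a ha a' ha' _ (hgb a ha)
        (by rw [e]; exact hgb a' ha')) le_rfl y hy
    exact ⟨a, ha, e.symm⟩
  have hs : ∀ a ∈ P, ∃ s : ℤ, (s = 0 ∨ s = 1) ∧
      g (if b a = u then b a + μ else b a) = a + s * μ := by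
    intro a ha
    have := hgb a ha
    simp only [mem_insert, mem_singleton] at this
    rcases this with e | e
    · exact ⟨0, Or.inl rfl, by simp [e]⟩
    · exact ⟨1, Or.inr rfl, by simp [e]⟩
  obtain ⟨a₀, ha₀, e₀⟩ := hsurj v hv
  obtain ⟨s₀, hs₀, f₀⟩ := hs a₀ ha₀
  rw [e₀, if_neg huv.symm] at f₀
  obtain ⟨ε, hε, hgε⟩ : ∃ ε : ℤ, (ε = 1 ∨ ε = -1) ∧ ∀ z, g (z + μ) = g z + ε * μ := by
    rcases hg.2 with h2 | h2
    · exact ⟨1, Or.inl rfl, by simpa using h2⟩
    · exact ⟨-1, Or.inr rfl, fun z => by rw [h2]; push_cast; ring⟩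
  have key : ∀ a ∈ P, ∀ k : ℤ, g (b a) = a + k * μ → k = s₀ := by
    intro a ha k e
    have h1 := hg.1.norm_sub (b a) v
    rw [e, f₀, show a + k * μ - (a₀ + s₀ * μ) = a + ((k - s₀ : ℤ) : ℂ) * μ - a₀ by
      push_cast; ring] at h1
    have := small _ _ _ _ _ (hP ha) (hP ha₀) (hP (hb a ha)) (hP hv) h1
    omega
  have key2 : ∀ a ∈ P, b a = u → ∃ s : ℤ, (s = 0 ∨ s = 1) ∧ g (b a) = a + (s - ε : ℤ) * μ := by
    intro a ha e
    obtain ⟨s, h1, h2⟩ := hs a ha
    rw [if_pos e, hgε] at h2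
    exact ⟨s, h1, by push_cast; linear_combination h2⟩
  refine ⟨tr (-(s₀ * μ)) * g, Iso.mul ⟨1, Or.inl (tr_pos _)⟩ hg.1, fun e => ?_,
    pres_of_maps fun a ha => ⟨b a, hb a ha, ?_⟩⟩
  · have hform : ∀ z, g z = z + s₀ * μ := by
      intro z
      have := congrArg (fun f : Perm ℂ => f z) e
      simp only [Perm.mul_apply, tr_apply, Perm.coe_one, id_eq] at this
      linear_combination this
    have hε1 : ε = 1 := by
      have := hgε 0
      rw [hform, hform] at this
      have h2 : ((ε : ℂ) - 1) * μ = 0 := by linear_combination -this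
      exact_mod_cast sub_eq_zero.1 ((mul_eq_zero.1 h2).resolve_right hμ)
    obtain ⟨a, ha, ea⟩ := hsurj u hu
    obtain ⟨s, h1, h2⟩ := key2 a ha ea
    have := key a ha _ h2
    have h0 : s₀ = 0 := by omega
    apply hg1
    ext z
    simp [hform, h0]
  · simp only [Perm.mul_apply, tr_apply]
    by_cases e : b a = u
    · obtain ⟨s, -, h2⟩ := key2 a ha e
      rw [h2, key a ha _ h2]; ring
    · obtain ⟨s, -, h2⟩ := hs a ha
      rw [if_neg e] at h2
      rw [h2, key a ha _ h2]; ring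

/-- If some translation almost preserves the colouring, all subsets of `W` are symmetric. -/
theorem allSym_of_tr {C : Set ℂ} {W : Finset ℂ} (hW : 2 ≤ W.card) (hd : ∀ x ∈ W, x ∉ C)
    (hB : Bad C W) {l : ℂ} (hl : l ≠ 0) (h : Alm C (tr l)) : AllSym W := by
  by_cases hind : ∃ l', Alm C (tr l') ∧ (l' * conj l).im ≠ 0
  · obtain ⟨l', h', hind⟩ := hind
    exact allSym_two hW hd hB h h' hind
  push Not at hind
  obtain ⟨M, hM⟩ := ((W ×ˢ W).finite_toSet.image fun p : ℂ × ℂ => 2 * ‖p.1 - p.2‖).bddAbove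
  have hl' := norm_pos_iff.2 hl
  obtain ⟨N, hN⟩ := exists_nat_gt (M / ‖l‖)
  rw [div_lt_iff₀ hl'] at hN
  have halm : ∀ n : ℕ, Alm C (tr (n * l)) := by
    intro n
    induction n with
    | zero =>
      have : {x | ¬ (tr (((0 : ℕ) : ℂ) * l) x ∈ C ↔ x ∈ C)} = ∅ := by
        ext x; simp
      unfold Alm
      rw [this]
      exact Set.finite_empty
    | succ n ih =>
      have : tr (((n + 1 : ℕ) : ℂ) * l) = tr l * tr (n * l) := by
        ext x; simp [add_mul, add_assoc]
      rw [this]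
      exact h.mul ih
  refine allSym_dir hd (μ := N * l) (fun T hT => ?_) (halm N) fun x hx y hy => ?_
  · obtain ⟨γ, h1, h2, h3⟩ := hB T hT
    refine ⟨γ, ⟨h1, ?_⟩, h2, h3⟩
    obtain ⟨m, hm⟩ := conj_tr h1.inv l
    have hm' : ∀ z, γ (z + l) = γ z + m := by
      intro z
      have := hm (γ z)
      rw [inv_app] at this
      rw [← this, app_inv]
    have i1 := hind m (alm_conj h3.alm.inv h hm)
    have i2 : ‖m‖ = ‖l‖ := by
      have := h1.norm_sub (0 + l) 0
      rw [hm'] at this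
      simpa using this
    have i3 : (m - l) * (m + l) = 0 := by
      have f1 : conj (m * conj l) = m * conj l := Complex.conj_eq_iff_im.2 i1
      rw [map_mul, Complex.conj_conj] at f1
      have e1 := Complex.mul_conj' m
      have e2 := Complex.mul_conj' l
      rw [i2, ← e2] at e1
      have hc : conj l ≠ 0 := by simpa using hl
      apply mul_left_cancel₀ hc
      linear_combination -m * f1 + l * e1
    have ind : ∀ s : ℂ, (∀ z, γ (z + l) = γ z + s) → ∀ (n : ℕ) z, γ (z + n * l) = γ z + n * s := by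
      intro s hs n z
      induction n with
      | zero => simp
      | succ n ih =>
        push_cast
        rw [add_mul, one_mul, ← add_assoc, hs, ih]; ring
    rcases mul_eq_zero.1 i3 with e | e
    · exact Or.inl fun z => by rw [ind m hm', sub_eq_zero.1 e]
    · exact Or.inr fun z => by
        rw [ind m hm', eq_neg_of_add_eq_zero_left e]; ring
  · have := hM (Set.mem_image_of_mem _ (show (x, y) ∈ (↑(W ×ˢ W) : Set (ℂ × ℂ)) by simp [hx, hy]))
    rw [norm_mul, Complex.norm_natCast]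
    exact lt_of_le_of_lt this hN

end Pool.Agent.P.MP_84fce2_co.Sv
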